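import Mathlib

/-!
A clash-free family over `ℕ` with teaching pairs, built from four blocks (residues mod 4).
-/

namespace Pool.Agent.Work.MP_4dbef5_lc.Lower

/-- The block of a point. -/
def blk (z : ℕ) : ℕ := if z % 4 = 1 then 2 else if z % 4 = 2 then 1 else z % 4

/-- Number of concepts for a pair of points of the given blocks. -/
def wt (p q : ℕ) : ℕ := if p = q then 1 else if p / 2 = q / 2 then 2 else 3

/-- The value table, 14 bits per item kind. -/
def big : ℕ :=
  0x9020000000000000000000000000000000000014408a20000000134000000000000000000000090452510822288c945091000000048440000000000490b40a8924089420b24200002098148000000104d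

/-- Value at the point `rz` of block `b` of the item with pair `rx` (block `p`), `ry` (block `q`)
and index `k`. -/
def cv (p rx q ry k b rz : ℕ) : Bool :=
  if b = p ∧ rz = rx then Nat.testBit big (14 * ((p * 4 + q) * 3 + k) + 12)
  else if b = q ∧ rz = ry then Nat.testBit big (14 * ((p * 4 + q) * 3 + k) + 13)
  else Nat.testBit big (14 * ((p * 4 + q) * 3 + k) + 3 * b +
    (if b = p then (if b = q then (if rz < rx then 0 else if rz < ry then 1 else 2)
      else (if rz < rx then 0 else 1)) else if b = q then (if rz < ry then 0 else 1) else 0))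

lemma cv_congr {p rx q ry k b rz rx' ry' rz' : ℕ} (h1 : rz = rx ↔ rz' = rx')
    (h2 : rz = ry ↔ rz' = ry') (h3 : rz < rx ↔ rz' < rx') (h4 : rz < ry ↔ rz' < ry') :
    cv p rx q ry k b rz = cv p rx' q ry' k b rz' := by
  unfold cv
  simp only [h1, h2, h3, h4]

/-- The finite check for two kinds of items. -/
def chk2 (p q k p' q' k' : ℕ) : Bool :=
  (List.range 4).all fun rx => (List.range 4).all fun ry =>
    (Nat.ble q p && Nat.ble ry rx) ||
    ((List.range 4).all fun rx' =>
      (Nat.beq rx rx' && !Nat.beq p p') || (Nat.beq ry rx' && !Nat.beq q p') ||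
      ((List.range 4).all fun ry' =>
        (Nat.ble q' p' && Nat.ble ry' rx') ||
        (Nat.beq rx ry' && !Nat.beq p q') || (Nat.beq ry ry' && !Nat.beq q q') ||
        (Nat.beq p p' && Nat.beq q q' && Nat.beq k k' && Nat.beq rx rx' && Nat.beq ry ry') ||
        xor (cv p rx q ry k p rx) (cv p' rx' q' ry' k' p rx) ||
        xor (cv p rx q ry k q ry) (cv p' rx' q' ry' k' q ry) ||
        xor (cv p rx q ry k p' rx') (cv p' rx' q' ry' k' p' rx') ||
        xor (cv p rx q ry k q' ry') (cv p' rx' q' ry' k' q' ry')))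

/-- The finite check. -/
def chk : Bool :=
  (List.range 4).all fun p => (List.range 4).all fun q => Nat.blt q p ||
  (List.range (wt p q)).all fun k =>
  (List.range 4).all fun p' => (List.range 4).all fun q' => Nat.blt q' p' ||
  (List.range (wt p' q')).all fun k' => chk2 p q k p' q' k'

lemma chk_ok : chk = true := by decide +kernel

lemma fin_check {p q k p' q' k' rx ry rx' ry' : ℕ} (hp : p < 4) (hq : q < 4) (hpq : p ≤ q)
    (hk : k < wt p q) (hp' : p' < 4) (hq' : q' < 4) (hpq' : p' ≤ q') (hk' : k' < wt p' q')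
    (hrx : rx < 4) (hry : ry < 4) (hrx' : rx' < 4) (hry' : ry' < 4) (ho : p < q ∨ rx < ry)
    (ho' : p' < q' ∨ rx' < ry') (c1 : rx = rx' → p = p') (c2 : ry = rx' → q = p')
    (c3 : rx = ry' → p = q') (c4 : ry = ry' → q = q')
    (hne : ¬ (p = p' ∧ q = q' ∧ k = k' ∧ rx = rx' ∧ ry = ry')) :
    cv p rx q ry k p rx ≠ cv p' rx' q' ry' k' p rx ∨ cv p rx q ry k q ry ≠ cv p' rx' q' ry' k' q ry ∨
    cv p rx q ry k p' rx' ≠ cv p' rx' q' ry' k' p' rx' ∨
    cv p rx q ry k q' ry' ≠ cv p' rx' q' ry' k' q' ry' := by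
  have h := chk_ok
  unfold chk chk2 at h
  simp only [List.all_eq_true, List.mem_range, Bool.or_eq_true] at h
  have h1 := h p hp q hq
  rcases h1 with h1 | h1
  · have := Nat.le_of_ble_eq_true h1; omega
  have h2 := h1 k hk p' hp' q' hq'
  rcases h2 with h2 | h2
  · have := Nat.le_of_ble_eq_true h2; omega
  have h3 := h2 k' hk' rx hrx ry hry
  rcases h3 with h3 | h3
  · rw [Bool.and_eq_true] at h3
    have := Nat.le_of_ble_eq_true h3.1
    have := Nat.le_of_ble_eq_true h3.2
    omega
  have h4 := h3 rx' hrx'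
  rcases h4 with (h4 | h4) | h4
  · rw [Bool.and_eq_true, Bool.not_eq_true'] at h4
    have e := c1 (Nat.eq_of_beq_eq_true h4.1)
    rw [e, Nat.beq_refl] at h4
    exact absurd h4.2 (by simp)
  · rw [Bool.and_eq_true, Bool.not_eq_true'] at h4
    have e := c2 (Nat.eq_of_beq_eq_true h4.1)
    rw [e, Nat.beq_refl] at h4
    exact absurd h4.2 (by simp)
  have h5 := h4 ry' hry'
  rcases h5 with (((((((h5 | h5) | h5) | h5) | h5) | h5) | h5) | h5)
  · rw [Bool.and_eq_true] at h5
    have := Nat.le_of_ble_eq_true h5.1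
    have := Nat.le_of_ble_eq_true h5.2
    omega
  · rw [Bool.and_eq_true, Bool.not_eq_true'] at h5
    have e := c3 (Nat.eq_of_beq_eq_true h5.1)
    rw [e, Nat.beq_refl] at h5
    exact absurd h5.2 (by simp)
  · rw [Bool.and_eq_true, Bool.not_eq_true'] at h5
    have e := c4 (Nat.eq_of_beq_eq_true h5.1)
    rw [e, Nat.beq_refl] at h5
    exact absurd h5.2 (by simp)
  · simp only [Bool.and_eq_true] at h5
    obtain ⟨⟨⟨⟨e1, e2⟩, e3⟩, e4⟩, e5⟩ := h5
    exact absurd ⟨Nat.eq_of_beq_eq_true e1, Nat.eq_of_beq_eq_true e2, Nat.eq_of_beq_eq_true e3,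
      Nat.eq_of_beq_eq_true e4, Nat.eq_of_beq_eq_true e5⟩ hne
  · left; intro e; rw [e] at h5; simp at h5
  · right; left; intro e; rw [e] at h5; simp at h5
  · right; right; left; intro e; rw [e] at h5; simp at h5
  · right; right; right; intro e; rw [e] at h5; simp at h5

/-- Ranks of four numbers. -/
lemma ranks (a b c d : ℕ) : ∃ r : ℕ → ℕ, (r a < 4 ∧ r b < 4 ∧ r c < 4 ∧ r d < 4) ∧
    ∀ z ∈ [a, b, c, d], ∀ z' ∈ [a, b, c, d], (z < z' ↔ r z < r z') := by
  refine ⟨fun z => (if a < z then 1 else 0) + (if b < z then 1 else 0) + (if c < z then 1 else 0) +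
    (if d < z then 1 else 0), ⟨?_, ?_, ?_, ?_⟩, ?_⟩
  · simp only [lt_irrefl, if_false]; split_ifs <;> omega
  · simp only [lt_irrefl, if_false]; split_ifs <;> omega
  · simp only [lt_irrefl, if_false]; split_ifs <;> omega
  · simp only [lt_irrefl, if_false]; split_ifs <;> omega
  · intro z hz z' hz'
    have mono : ∀ u v : ℕ, u ≤ v → ((if a < u then 1 else 0) + (if b < u then 1 else 0) +
        (if c < u then 1 else 0) + (if d < u then 1 else 0) : ℕ) ≤
        (if a < v then 1 else 0) + (if b < v then 1 else 0) + (if c < v then 1 else 0) +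
        (if d < v then 1 else 0) := by
      intro u v huv
      have k : ∀ w : ℕ, (if w < u then 1 else 0 : ℕ) ≤ if w < v then 1 else 0 := by
        intro w; split_ifs <;> omega
      exact Nat.add_le_add (Nat.add_le_add (Nat.add_le_add (k a) (k b)) (k c)) (k d)
    constructor
    · intro h
      have k : ∀ w : ℕ, (if w < z then 1 else 0 : ℕ) ≤ if w < z' then 1 else 0 := by
        intro w; split_ifs <;> omega
      have ka := k a
      have kb := k b
      have kc := k c
      have kd := k d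
      simp only [List.mem_cons, List.not_mem_nil, or_false] at hz
      rcases hz with rfl | rfl | rfl | rfl
      · simp only [lt_irrefl, if_false, h, if_true] at *; omega
      · simp only [lt_irrefl, if_false, h, if_true] at *; omega
      · simp only [lt_irrefl, if_false, h, if_true] at *; omega
      · simp only [lt_irrefl, if_false, h, if_true] at *; omega
    · intro h
      by_contra hcon
      have := mono z' z (by omega)
      simp only at h
      omega

/-- Two oriented items differ on the union of their pairs. -/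
theorem differ {p q k p' q' k' x y x' y' : ℕ} (hp : p < 4) (hq : q < 4) (hpq : p ≤ q)
    (hk : k < wt p q) (hp' : p' < 4) (hq' : q' < 4) (hpq' : p' ≤ q') (hk' : k' < wt p' q')
    (ho : p < q ∨ x < y) (ho' : p' < q' ∨ x' < y') (c1 : x = x' → p = p') (c2 : y = x' → q = p')
    (c3 : x = y' → p = q') (c4 : y = y' → q = q')
    (hne : ¬ (p = p' ∧ q = q' ∧ k = k' ∧ x = x' ∧ y = y')) :
    cv p x q y k p x ≠ cv p' x' q' y' k' p x ∨ cv p x q y k q y ≠ cv p' x' q' y' k' q y ∨
    cv p x q y k p' x' ≠ cv p' x' q' y' k' p' x' ∨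
    cv p x q y k q' y' ≠ cv p' x' q' y' k' q' y' := by
  obtain ⟨r, ⟨r1, r2, r3, r4⟩, hr⟩ := ranks x y x' y'
  have hre : ∀ z ∈ [x, y, x', y'], ∀ z' ∈ [x, y, x', y'], (z = z' ↔ r z = r z') := by
    intro z hz z' hz'
    have h1 := hr z hz z' hz'
    have h2 := hr z' hz' z hz
    constructor
    · rintro rfl; rfl
    · intro h; omega
  have mx : x ∈ [x, y, x', y'] := by simp
  have my : y ∈ [x, y, x', y'] := by simp
  have mx' : x' ∈ [x, y, x', y'] := by simp
  have my' : y' ∈ [x, y, x', y'] := by simp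
  have key : ∀ z ∈ [x, y, x', y'], ∀ b, cv p x q y k b z = cv p (r x) q (r y) k b (r z) ∧
      cv p' x' q' y' k' b z = cv p' (r x') q' (r y') k' b (r z) := by
    intro z hz b
    exact ⟨cv_congr (hre z hz x mx) (hre z hz y my) (hr z hz x mx) (hr z hz y my),
      cv_congr (hre z hz x' mx') (hre z hz y' my') (hr z hz x' mx') (hr z hz y' my')⟩
  have h := fin_check hp hq hpq hk hp' hq' hpq' hk' r1 r2 r3 r4
    (ho.imp id fun h => (hr x mx y my).mp h) (ho'.imp id fun h => (hr x' mx' y' my').mp h)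
    (fun e => c1 ((hre x mx x' mx').mpr e)) (fun e => c2 ((hre y my x' mx').mpr e))
    (fun e => c3 ((hre x mx y' my').mpr e)) (fun e => c4 ((hre y my y' my').mpr e))
    (fun e => hne ⟨e.1, e.2.1, e.2.2.1, (hre x mx x' mx').mpr e.2.2.2.1,
      (hre y my y' my').mpr e.2.2.2.2⟩)
  rw [(key x mx p).1, (key x mx p).2, (key y my q).1, (key y my q).2, (key x' mx' p').1,
    (key x' mx' p').2, (key y' my' q').1, (key y' my' q').2]
  exact h

lemma blk_lt (z : ℕ) : blk z < 4 := by unfold blk; split_ifs <;> omega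

lemma wt_comm (p q : ℕ) : wt p q = wt q p := by
  unfold wt
  split_ifs <;> omega

/-- The value at `z` of the item with pair `x < y` and index `k`. -/
def val (x y k z : ℕ) : Bool :=
  if blk x ≤ blk y then cv (blk x) x (blk y) y k (blk z) z
  else cv (blk y) y (blk x) x k (blk z) z

theorem val_differ {x y k x' y' k' : ℕ} (hxy : x < y) (hxy' : x' < y') (hk : k < wt (blk x) (blk y))
    (hk' : k' < wt (blk x') (blk y')) (hne : ¬ (x = x' ∧ y = y' ∧ k = k')) :
    ∃ z, (z = x ∨ z = y ∨ z = x' ∨ z = y') ∧ val x y k z ≠ val x' y' k' z := by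
  have b1 := blk_lt x
  have b2 := blk_lt y
  have b3 := blk_lt x'
  have b4 := blk_lt y'
  unfold val
  by_cases h : blk x ≤ blk y <;> by_cases h' : blk x' ≤ blk y'
  · simp only [h, h', if_true]
    rcases differ (p := blk x) (q := blk y) (p' := blk x') (q' := blk y') (x := x) (y := y)
      (x' := x') (y' := y') b1 b2 h hk b3 b4 h' hk' (Or.inr hxy) (Or.inr hxy') (fun e => by rw [e])
      (fun e => by rw [e]) (fun e => by rw [e]) (fun e => by rw [e])
      (fun e => hne ⟨e.2.2.2.1, e.2.2.2.2, e.2.2.1⟩) with h1 | h1 | h1 | h1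
    · exact ⟨x, by simp, h1⟩
    · exact ⟨y, by simp, h1⟩
    · exact ⟨x', by simp, h1⟩
    · exact ⟨y', by simp, h1⟩
  · simp only [h, h', if_true, if_false]
    rcases differ (p := blk x) (q := blk y) (p' := blk y') (q' := blk x') (x := x) (y := y)
      (x' := y') (y' := x') b1 b2 h hk b4 b3 (by omega) (by rwa [wt_comm]) (Or.inr hxy)
      (Or.inl (by omega)) (fun e => by rw [e])
      (fun e => by rw [e]) (fun e => by rw [e]) (fun e => by rw [e])
      (fun e => by omega) with h1 | h1 | h1 | h1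
    · exact ⟨x, by simp, h1⟩
    · exact ⟨y, by simp, h1⟩
    · exact ⟨y', by simp, h1⟩
    · exact ⟨x', by simp, h1⟩
  · simp only [h, h', if_true, if_false]
    rcases differ (p := blk y) (q := blk x) (p' := blk x') (q' := blk y') (x := y) (y := x)
      (x' := x') (y' := y') b2 b1 (by omega) (by rwa [wt_comm]) b3 b4 h' hk' (Or.inl (by omega))
      (Or.inr hxy') (fun e => by rw [e])
      (fun e => by rw [e]) (fun e => by rw [e]) (fun e => by rw [e])
      (fun e => by omega) with h1 | h1 | h1 | h1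
    · exact ⟨y, by simp, h1⟩
    · exact ⟨x, by simp, h1⟩
    · exact ⟨x', by simp, h1⟩
    · exact ⟨y', by simp, h1⟩
  · simp only [h, h', if_false]
    rcases differ (p := blk y) (q := blk x) (p' := blk y') (q' := blk x') (x := y) (y := x)
      (x' := y') (y' := x') b2 b1 (by omega) (by rwa [wt_comm]) b4 b3 (by omega)
      (by rwa [wt_comm]) (Or.inl (by omega))
      (Or.inl (by omega)) (fun e => by rw [e])
      (fun e => by rw [e]) (fun e => by rw [e]) (fun e => by rw [e])
      (fun e => hne ⟨e.2.2.2.2, e.2.2.2.1, e.2.2.1⟩) with h1 | h1 | h1 | h1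
    · exact ⟨y, by simp, h1⟩
    · exact ⟨x, by simp, h1⟩
    · exact ⟨y', by simp, h1⟩
    · exact ⟨x', by simp, h1⟩

/-! ### Counting -/

lemma wsum (b : ℕ) (hb : b < 4) (a : ℕ) : ∑ x ∈ Finset.range (4 * a), wt (blk x) b = 9 * a := by
  induction a with
  | zero => simp
  | succ a ih =>
    rw [show 4 * (a + 1) = 4 * a + 1 + 1 + 1 + 1 by ring, Finset.sum_range_succ,
      Finset.sum_range_succ, Finset.sum_range_succ, Finset.sum_range_succ, ih]
    have e0 : blk (4 * a) = 0 := by unfold blk; split_ifs <;> omega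
    have e1 : blk (4 * a + 1) = 2 := by unfold blk; split_ifs <;> omega
    have e2 : blk (4 * a + 1 + 1) = 1 := by unfold blk; split_ifs <;> omega
    have e3 : blk (4 * a + 1 + 1 + 1) = 3 := by unfold blk; split_ifs <;> omega
    rw [e0, e1, e2, e3]
    have : wt 0 b + wt 2 b + wt 1 b + wt 3 b = 9 := by interval_cases b <;> decide
    omega

/-- Number of items with pairs in `{0, .., n - 1}`. -/
def cnt (n : ℕ) : ℕ := ∑ y ∈ Finset.range n, ∑ x ∈ Finset.range y, wt (blk x) (blk y)

lemma cnt_succ (n : ℕ) : cnt (n + 1) = cnt n + ∑ x ∈ Finset.range n, wt (blk x) (blk n) := by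
  unfold cnt
  rw [Finset.sum_range_succ]

lemma row0 (a : ℕ) : ∑ x ∈ Finset.range (4 * a), wt (blk x) (blk (4 * a)) = 9 * a := by
  have e0 : blk (4 * a) = 0 := by unfold blk; split_ifs <;> omega
  rw [e0, wsum 0 (by norm_num)]

lemma row1 (a : ℕ) : ∑ x ∈ Finset.range (4 * a + 1), wt (blk x) (blk (4 * a + 1)) = 9 * a + 3 := by
  have e0 : blk (4 * a) = 0 := by unfold blk; split_ifs <;> omega
  have e1 : blk (4 * a + 1) = 2 := by unfold blk; split_ifs <;> omega
  rw [e1, Finset.sum_range_succ, wsum 2 (by norm_num), e0]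
  rfl

lemma row2 (a : ℕ) : ∑ x ∈ Finset.range (4 * a + 2), wt (blk x) (blk (4 * a + 2)) = 9 * a + 5 := by
  have e0 : blk (4 * a) = 0 := by unfold blk; split_ifs <;> omega
  have e1 : blk (4 * a + 1) = 2 := by unfold blk; split_ifs <;> omega
  have e2 : blk (4 * a + 2) = 1 := by unfold blk; split_ifs <;> omega
  rw [e2, Finset.sum_range_succ, Finset.sum_range_succ, wsum 1 (by norm_num), e0, e1]
  rfl

lemma row3 (a : ℕ) : ∑ x ∈ Finset.range (4 * a + 3), wt (blk x) (blk (4 * a + 3)) = 9 * a + 8 := by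
  have e0 : blk (4 * a) = 0 := by unfold blk; split_ifs <;> omega
  have e1 : blk (4 * a + 1) = 2 := by unfold blk; split_ifs <;> omega
  have e2 : blk (4 * a + 2) = 1 := by unfold blk; split_ifs <;> omega
  have e3 : blk (4 * a + 3) = 3 := by unfold blk; split_ifs <;> omega
  rw [e3, Finset.sum_range_succ, Finset.sum_range_succ, Finset.sum_range_succ,
    wsum 3 (by norm_num), e0, e1, e2]
  rfl

lemma cnt_four (a : ℕ) : cnt (4 * a) + 2 * a = 18 * a * a ∧ cnt (4 * a + 1) = cnt (4 * a) + 9 * a ∧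
    cnt (4 * a + 2) = cnt (4 * a) + 18 * a + 3 ∧ cnt (4 * a + 3) = cnt (4 * a) + 27 * a + 8 ∧
    cnt (4 * a + 4) = cnt (4 * a) + 36 * a + 16 := by
  have s : ∀ a, cnt (4 * a + 1) = cnt (4 * a) + 9 * a ∧
      cnt (4 * a + 2) = cnt (4 * a) + 18 * a + 3 ∧ cnt (4 * a + 3) = cnt (4 * a) + 27 * a + 8 ∧
      cnt (4 * a + 4) = cnt (4 * a) + 36 * a + 16 := by
    intro a
    have s1 := cnt_succ (4 * a)
    have s2 : cnt (4 * a + 2) = _ := cnt_succ (4 * a + 1)
    have s3 : cnt (4 * a + 3) = _ := cnt_succ (4 * a + 2)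
    have s4 : cnt (4 * a + 4) = _ := cnt_succ (4 * a + 3)
    rw [row0] at s1
    rw [row1] at s2
    rw [row2] at s3
    rw [row3] at s4
    refine ⟨by omega, by omega, by omega, by omega⟩
  refine ⟨?_, s a⟩
  induction a with
  | zero => rfl
  | succ a ih =>
    have h := (s a).2.2.2
    rw [show 4 * (a + 1) = 4 * a + 4 by ring, h]
    nlinarith

theorem cnt_eq (n : ℕ) (hn : 1 ≤ n) : cnt n = n * (9 * n - 4) / 8 := by
  obtain ⟨a, r, hr, rfl⟩ : ∃ a r, r < 4 ∧ n = 4 * a + r := ⟨n / 4, n % 4, by omega, by omega⟩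
  obtain ⟨h0, h1, h2, h3, _⟩ := cnt_four a
  symm
  rcases (by omega : r = 0 ∨ r = 1 ∨ r = 2 ∨ r = 3) with rfl | rfl | rfl | rfl
  · obtain ⟨b, rfl⟩ : ∃ b, a = b + 1 := ⟨a - 1, by omega⟩
    have e : 9 * (4 * (b + 1) + 0) - 4 = 36 * b + 32 := by omega
    rw [e]
    apply Nat.div_eq_of_lt_le <;> simp only [add_zero] at * <;> nlinarith
  · have e : 9 * (4 * a + 1) - 4 = 36 * a + 5 := by omega
    rw [e]
    apply Nat.div_eq_of_lt_le <;> nlinarith
  · have e : 9 * (4 * a + 2) - 4 = 36 * a + 14 := by omega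
    rw [e]
    apply Nat.div_eq_of_lt_le <;> nlinarith
  · have e : 9 * (4 * a + 3) - 4 = 36 * a + 23 := by omega
    rw [e]
    apply Nat.div_eq_of_lt_le <;> nlinarith

end Pool.Agent.Work.MP_4dbef5_lc.Lower
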