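import Pool.Agent.Work.MP_4dbef5_lc.ChkDefs
import Mathlib.Data.Nat.Bitwise
import Mathlib.Data.Nat.Digits.Defs
import Mathlib.Tactic

/-!
A small verified checker for clausal refutations with explicit unit-propagation hints, written with
plain recursors so that the kernel evaluates it quickly.
A literal is a natural number `2 * v` (variable `v`) or `2 * v + 1` (its negation), with `v ≥ 1`.
A clause is a natural number whose base-`65536` digits are its literals.
-/

namespace Pool.Agent.Work.MP_4dbef5_lc.Chk

/-! ### Semantics -/

/-- The literal `l` is true under the assignment `α`. -/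
def LitTrue (α : ℕ → Prop) (l : ℕ) : Prop :=
  l ≠ 0 ∧ ((l % 2 = 0 ∧ α (l / 2)) ∨ (l % 2 = 1 ∧ ¬ α (l / 2)))

/-- The clause `c` holds under the assignment `α`. -/
def Holds (α : ℕ → Prop) (c : ℕ) : Prop := ∃ k, LitTrue α (c / 65536 ^ k % 65536)

lemma holds_step {α : ℕ → Prop} {c : ℕ} (h : Holds α c) :
    LitTrue α (c % 65536) ∨ Holds α (c / 65536) := by
  obtain ⟨k, hk⟩ := h
  cases k with
  | zero => left; simpa using hk
  | succ k =>
    right
    refine ⟨k, ?_⟩
    rw [Nat.div_div_eq_div_mul, ← pow_succ']
    exact hk

lemma not_holds_zero {α : ℕ → Prop} : ¬ Holds α 0 := by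
  rintro ⟨k, hk, _⟩
  simp at hk

lemma land_eq (c : ℕ) : Nat.land c 65535 = c % 65536 :=
  Nat.and_two_pow_sub_one_eq_mod c 16

lemma shr_eq (c : ℕ) : Nat.shiftRight c 16 = c / 65536 := Nat.shiftRight_eq_div_pow c 16

lemma bit_eq (F l : ℕ) : Nat.beq (Nat.land (Nat.shiftRight F l) 1) 1 = F.testBit l := by
  have h : Nat.land (Nat.shiftRight F l) 1 = (F >>> l) % 2 :=
    Nat.and_two_pow_sub_one_eq_mod _ 1
  rw [h, Nat.testBit, Nat.one_and_eq_mod_two]
  rcases Nat.mod_two_eq_zero_or_one (F >>> l) with h0 | h0 <;> rw [h0] <;> rfl

/-- All literals of the bit set `F` are false. -/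
def AllFalse (α : ℕ → Prop) (F : ℕ) : Prop := ∀ l, F.testBit l = true → ¬ LitTrue α l

lemma allFalse_or {α : ℕ → Prop} {F l : ℕ} (hF : AllFalse α F) (hl : ¬ LitTrue α l) :
    AllFalse α (Nat.lor F (Nat.shiftLeft 1 l)) := by
  intro k hk
  have h1 : (F ||| (1 <<< l)).testBit k = true := hk
  rw [Nat.testBit_or, Nat.testBit_shiftLeft, Bool.or_eq_true] at h1
  rcases h1 with h1 | h1
  · exact hF k h1
  · rw [Bool.and_eq_true, decide_eq_true_eq, Nat.testBit_one_eq_true_iff_self_eq_zero] at h1
    have : k = l := by omega
    rw [this]
    exact hl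

lemma findUnit_spec {α : ℕ → Prop} {F : ℕ} (hF : AllFalse α F) :
    ∀ (fuel c acc : ℕ), ((acc ≠ 0 ∧ LitTrue α acc) ∨ Holds α c) →
      findUnit fuel c F acc = 1 ∨ (findUnit fuel c F acc ≠ 0 ∧ LitTrue α (findUnit fuel c F acc)) := by
  intro fuel
  induction fuel with
  | zero => intro c acc _; left; rfl
  | succ f ih =>
    intro c acc h
    have hdef : findUnit (f + 1) c F acc =
      Bool.rec
        (Bool.rec
          (Bool.rec 1 (findUnit f (Nat.shiftRight c 16) F (Nat.land c 65535))
            (Nat.beq acc 0))
          (findUnit f (Nat.shiftRight c 16) F acc)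
          (Nat.beq (Nat.land (Nat.shiftRight F (Nat.land c 65535)) 1) 1))
        acc
        (Nat.beq c 0) := rfl
    rw [hdef]
    clear hdef
    rw [bit_eq, land_eq, shr_eq]
    cases hc : Nat.beq c 0 with
    | true =>
      have hc0 : c = 0 := Nat.eq_of_beq_eq_true hc
      subst hc0
      rcases h with h | h
      · right; exact h
      · exact absurd h not_holds_zero
    | false =>
      cases hb : F.testBit (c % 65536) with
      | true =>
        apply ih
        rcases h with h | h
        · left; exact h
        · rcases holds_step h with h | h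
          · exact absurd h (hF _ hb)
          · right; exact h
      | false =>
        cases ha : Nat.beq acc 0 with
        | true =>
          have ha0 : acc = 0 := Nat.eq_of_beq_eq_true ha
          subst ha0
          apply ih
          rcases h with h | h
          · exact absurd rfl h.1
          · rcases holds_step h with h | h
            · left; exact ⟨h.1, h⟩
            · right; exact h
        | false => left; rfl

lemma addLits_spec {α : ℕ → Prop} :
    ∀ (fuel c F : ℕ), AllFalse α F → ¬ Holds α c → AllFalse α (addLits fuel c F) := by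
  intro fuel
  induction fuel with
  | zero => intro c F hF _; exact hF
  | succ f ih =>
    intro c F hF hc
    have hdef : addLits (f + 1) c F =
      Bool.rec
        (addLits f (Nat.shiftRight c 16) (Nat.lor F (Nat.shiftLeft 1 (Nat.land c 65535))))
        F
        (Nat.beq c 0) := rfl
    rw [hdef]
    clear hdef
    rw [land_eq, shr_eq]
    cases h0 : Nat.beq c 0 with
    | true => exact hF
    | false =>
      apply ih
      · apply allFalse_or hF
        intro hl
        exact hc ⟨0, by simpa using hl⟩
      · rintro ⟨k, hk⟩
        apply hc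
        refine ⟨k + 1, ?_⟩
        rw [pow_succ', ← Nat.div_div_eq_div_mul]
        exact hk

lemma litTrue_xor {α : ℕ → Prop} {u : ℕ} (h : LitTrue α u) : ¬ LitTrue α (Nat.xor u 1) := by
  rintro ⟨h0, h1⟩
  have hx : Nat.xor u 1 = u ^^^ 1 := rfl
  rw [hx] at h0 h1
  have e1 : (u ^^^ 1) / 2 = u / 2 := by
    apply Nat.eq_of_testBit_eq
    intro i
    have h1 : Nat.testBit 1 (i + 1) = false := by
      rw [Nat.testBit_succ]
      simp
    rw [Nat.testBit_div_two, Nat.testBit_div_two, Nat.testBit_xor, h1, Bool.xor_false]
  have e2 : (u ^^^ 1) % 2 = 1 - u % 2 := by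
    have := Nat.xor_mod_two_eq (m := u) (n := 1)
    rw [this]
    omega
  rw [e1, e2] at h1
  rcases h.2 with ⟨h2, h3⟩ | ⟨h2, h3⟩
  · rcases h1 with ⟨h4, h5⟩ | ⟨h4, h5⟩
    · omega
    · exact h5 h3
  · rcases h1 with ⟨h4, h5⟩ | ⟨h4, h5⟩
    · exact h3 h5
    · omega

lemma hints_spec {α : ℕ → Prop} {T : DB} {n : ℕ} (hT : ∀ i, i < n → Holds α (T.get i)) :
    ∀ (fuel h F : ℕ), AllFalse α F → hints T n fuel h F = true → False := by
  intro fuel
  induction fuel with
  | zero => intro h F _ hh; exact Bool.false_ne_true hh
  | succ f ih =>
    intro h F hF hh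
    have hdef : hints T n (f + 1) h F =
      Bool.rec false
        ((fun u => Bool.rec
          (Bool.rec
            (hints T n f (Nat.shiftRight h 16) (Nat.lor F (Nat.shiftLeft 1 (Nat.xor u 1))))
            false
            (Nat.beq u 1))
          true
          (Nat.beq u 0)) (findUnit 200 (DB.get T (Nat.land h 65535)) F 0))
        (Nat.blt (Nat.land h 65535) n) := rfl
    rw [hdef] at hh
    clear hdef
    cases hb : Nat.blt (Nat.land h 65535) n with
    | false => rw [hb] at hh; exact absurd hh (by simp)
    | true =>
      rw [hb] at hh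
      have hlt : Nat.land h 65535 < n := by
        have := Nat.le_of_ble_eq_true hb
        exact this
      have hspec := findUnit_spec hF 200 (DB.get T (Nat.land h 65535)) 0 (Or.inr (hT _ hlt))
      generalize findUnit 200 (DB.get T (Nat.land h 65535)) F 0 = u at hh hspec
      change Bool.rec
          (Bool.rec
            (hints T n f (Nat.shiftRight h 16) (Nat.lor F (Nat.shiftLeft 1 (Nat.xor u 1))))
            false
            (Nat.beq u 1))
          true
          (Nat.beq u 0) = true at hh
      cases h0 : Nat.beq u 0 with
      | true =>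
        have hu0 : u = 0 := Nat.eq_of_beq_eq_true h0
        subst hu0
        rcases hspec with h1 | h1
        · exact absurd h1 (by decide)
        · exact h1.1 rfl
      | false =>
        rw [h0] at hh
        cases h1 : Nat.beq u 1 with
        | true => rw [h1] at hh; exact absurd hh (by simp)
        | false =>
          rw [h1] at hh
          have hu1 : u ≠ 1 := by
            intro hu
            rw [hu] at h1
            exact absurd h1 (by decide)
          rcases hspec with h2 | h2
          · exact hu1 h2
          · exact ih _ _ (allFalse_or hF (litTrue_xor h2.2)) hh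

lemma verify_spec {α : ℕ → Prop} {T : DB} : ∀ (hs : List ℕ) (n : ℕ),
    (∀ i, i < n → Holds α (T.get i)) → verify T hs n = true →
      ∀ i, i < n + hs.length → Holds α (T.get i) := by
  intro hs
  induction hs with
  | nil => intro n hn _ i hi; exact hn i (by simpa using hi)
  | cons h hs ih =>
    intro n hn hv i hi
    have hdef : verify T (h :: hs) n =
      Bool.rec false (verify T hs (Nat.succ n)) (hints T n 1000 h (addLits 200 (DB.get T n) 0)) :=
      rfl
    rw [hdef] at hv
    cases hh : hints T n 1000 h (addLits 200 (DB.get T n) 0) with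
    | false => rw [hh] at hv; exact absurd hv (by simp)
    | true =>
      rw [hh] at hv
      refine ih (n + 1) ?_ hv i (by simp only [List.length_cons] at hi; omega)
      intro j hj
      by_cases hjn : j < n
      · exact hn j hjn
      · have hj' : j = n := by omega
        subst hj'
        by_contra hcon
        refine hints_spec hn 1000 h _ (addLits_spec 200 _ 0 ?_ hcon) hh
        intro l hl
        simp at hl

end Pool.Agent.Work.MP_4dbef5_lc.Chk
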