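/-!
Definitions of a small checker for clausal refutations with explicit unit-propagation hints, and of
the checks of the initial clauses, written with plain recursors so that the kernel evaluates them
quickly.  The meaning and the soundness proofs are in Chk.lean.
A literal is a natural number `2 * v` (variable `v`) or `2 * v + 1` (its negation), with `v ≥ 1`.
A clause is a natural number whose base-`65536` digits are its literals.
-/

namespace Pool.Agent.Work.MP_4dbef5_lc.Chk

/-- A static binary table of natural numbers; entry `i` is found by the bits of `i`, lowest first. -/
inductive DB where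
  | leaf : Nat → DB
  | node : DB → DB → DB

/-- Look up entry `i`. -/
noncomputable def DB.get (d : DB) : Nat → Nat :=
  DB.rec (fun c _ => c)
    (fun _ _ ihl ihr i =>
      Bool.rec (ihr (Nat.shiftRight i 1)) (ihl (Nat.shiftRight i 1)) (Nat.beq (Nat.land i 1) 0)) d

/-- `findUnit fuel c F acc`: `acc` is the only literal of the clause seen so far that is not in the
bit set `F` (`0` if none).  The result is `0` if all literals are in `F`, the only literal not in
`F`, or `1` for failure. -/
noncomputable def findUnit (fuel : Nat) : Nat → Nat → Nat → Nat :=
  Nat.rec (fun _ _ _ => 1)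
    (fun _ ih c F acc =>
      Bool.rec
        (Bool.rec
          (Bool.rec 1 (ih (Nat.shiftRight c 16) F (Nat.land c 65535))
            (Nat.beq acc 0))
          (ih (Nat.shiftRight c 16) F acc)
          (Nat.beq (Nat.land (Nat.shiftRight F (Nat.land c 65535)) 1) 1))
        acc
        (Nat.beq c 0)) fuel

/-- Add the literals of the clause `c` to the bit set `F`. -/
noncomputable def addLits (fuel : Nat) : Nat → Nat → Nat :=
  Nat.rec (fun _ F => F)
    (fun _ ih c F =>
      Bool.rec
        (ih (Nat.shiftRight c 16) (Nat.lor F (Nat.shiftLeft 1 (Nat.land c 65535))))
        F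
        (Nat.beq c 0)) fuel

/-- Run the hints `h` (base-`65536` digits, clause numbers), for the lemma number `n`. -/
noncomputable def hints (T : DB) (n : Nat) (fuel : Nat) : Nat → Nat → Bool :=
  Nat.rec (fun _ _ => false)
    (fun _ ih h F =>
      Bool.rec false
        ((fun u => Bool.rec
          (Bool.rec
            (ih (Nat.shiftRight h 16) (Nat.lor F (Nat.shiftLeft 1 (Nat.xor u 1))))
            false
            (Nat.beq u 1))
          true
          (Nat.beq u 0)) (findUnit 200 (DB.get T (Nat.land h 65535)) F 0))
        (Nat.blt (Nat.land h 65535) n)) fuel

/-- Check consecutive lemmas, numbered from `n`, with the listed hints. -/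
noncomputable def verify (T : DB) (hs : List Nat) : Nat → Bool :=
  List.rec (fun _ => true)
    (fun h _ ih n =>
      Bool.rec false (ih (Nat.succ n)) (hints T n 1000 h (addLits 200 (DB.get T n) 0))) hs

end Pool.Agent.Work.MP_4dbef5_lc.Chk
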