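import Pool.Agent.Work.MP_4dbef5_lc.Sem
import Pool.Agent.Work.MP_4dbef5_lc.TabA
import Pool.Agent.Work.MP_4dbef5_lc.HintA

/-! Refutation of the pattern A. -/

set_option maxRecDepth 100000

namespace Pool.Agent.Work.MP_4dbef5_lc.Sem

open Pool.Agent.Work.MP_4dbef5_lc.Chk

/-- Numbers of concepts: three points pairwise 2, two points 2, cross pairs 3. -/
def wtA (a b : ℕ) : ℕ := if b < 3 then 2 else if a < 3 then 3 else 2

lemma initA : okcs 5 wtA 3 4 tbA dsA 0 = true := by decide +kernel

lemma initlenA : dsA.length = 429 := by decide +kernel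

lemma okA0 : verify tbA hsA0 429 = true := by decide +kernel

lemma lenA0 : hsA0.length = 700 := by decide +kernel

lemma okA1 : verify tbA hsA1 1129 = true := by decide +kernel

lemma lenA1 : hsA1.length = 700 := by decide +kernel

lemma okA2 : verify tbA hsA2 1829 = true := by decide +kernel

lemma lenA2 : hsA2.length = 700 := by decide +kernel

lemma okA3 : verify tbA hsA3 2529 = true := by decide +kernel

lemma lenA3 : hsA3.length = 44 := by decide +kernel

lemma lastA : tbA.get 2572 = 0 := by decide +kernel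

theorem refuteA {pr : ℕ → ℕ → ℕ → ℕ → Prop} {c : ℕ → ℕ → ℕ → ℕ → ℕ → Prop}
    (hF : Fam 5 wtA 3 4 pr c) : False := by
  have h0 : ∀ i, i < 429 → Holds (asg pr c) (tbA.get i) := fun i hi =>
    okcs_spec (by norm_num) (by norm_num) (by norm_num) hF dsA 0 initA i (Nat.zero_le _) (by rw [initlenA]; omega)
  have h1 : ∀ i, i < 1129 → Holds (asg pr c) (tbA.get i) := fun i hi =>
    verify_spec hsA0 429 h0 okA0 i (by rw [lenA0]; omega)
  have h2 : ∀ i, i < 1829 → Holds (asg pr c) (tbA.get i) := fun i hi =>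
    verify_spec hsA1 1129 h1 okA1 i (by rw [lenA1]; omega)
  have h3 : ∀ i, i < 2529 → Holds (asg pr c) (tbA.get i) := fun i hi =>
    verify_spec hsA2 1829 h2 okA2 i (by rw [lenA2]; omega)
  have h4 : ∀ i, i < 2573 → Holds (asg pr c) (tbA.get i) := fun i hi =>
    verify_spec hsA3 2529 h3 okA3 i (by rw [lenA3]; omega)
  have h := h4 2572 (by norm_num)
  rw [lastA] at h
  exact not_holds_zero h

end Pool.Agent.Work.MP_4dbef5_lc.Sem
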