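import Pool.Agent.Work.MP_4dbef5_lc.Sem
import Pool.Agent.Work.MP_4dbef5_lc.TabB
import Pool.Agent.Work.MP_4dbef5_lc.HintB

/-! Refutation of the pattern B. -/

set_option maxRecDepth 100000

namespace Pool.Agent.Work.MP_4dbef5_lc.Sem

open Pool.Agent.Work.MP_4dbef5_lc.Chk

/-- Numbers of concepts: four points pairwise 2, two points 1, cross pairs 3. -/
def wtB (a b : ℕ) : ℕ := if b < 4 then 2 else if a < 4 then 3 else 1

lemma initB : okcs 6 wtB 4 5 tbB dsB 0 = true := by decide +kernel

lemma initlenB : dsB.length = 1015 := by decide +kernel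

lemma okB0 : verify tbB hsB0 1015 = true := by decide +kernel

lemma lenB0 : hsB0.length = 700 := by decide +kernel

lemma okB1 : verify tbB hsB1 1715 = true := by decide +kernel

lemma lenB1 : hsB1.length = 700 := by decide +kernel

lemma okB2 : verify tbB hsB2 2415 = true := by decide +kernel

lemma lenB2 : hsB2.length = 700 := by decide +kernel

lemma okB3 : verify tbB hsB3 3115 = true := by decide +kernel

lemma lenB3 : hsB3.length = 700 := by decide +kernel

lemma okB4 : verify tbB hsB4 3815 = true := by decide +kernel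

lemma lenB4 : hsB4.length = 700 := by decide +kernel

lemma okB5 : verify tbB hsB5 4515 = true := by decide +kernel

lemma lenB5 : hsB5.length = 700 := by decide +kernel

lemma okB6 : verify tbB hsB6 5215 = true := by decide +kernel

lemma lenB6 : hsB6.length = 700 := by decide +kernel

lemma okB7 : verify tbB hsB7 5915 = true := by decide +kernel

lemma lenB7 : hsB7.length = 700 := by decide +kernel

lemma okB8 : verify tbB hsB8 6615 = true := by decide +kernel

lemma lenB8 : hsB8.length = 700 := by decide +kernel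

lemma okB9 : verify tbB hsB9 7315 = true := by decide +kernel

lemma lenB9 : hsB9.length = 700 := by decide +kernel

lemma okB10 : verify tbB hsB10 8015 = true := by decide +kernel

lemma lenB10 : hsB10.length = 700 := by decide +kernel

lemma okB11 : verify tbB hsB11 8715 = true := by decide +kernel

lemma lenB11 : hsB11.length = 700 := by decide +kernel

lemma okB12 : verify tbB hsB12 9415 = true := by decide +kernel

lemma lenB12 : hsB12.length = 700 := by decide +kernel

lemma okB13 : verify tbB hsB13 10115 = true := by decide +kernel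

lemma lenB13 : hsB13.length = 700 := by decide +kernel

lemma okB14 : verify tbB hsB14 10815 = true := by decide +kernel

lemma lenB14 : hsB14.length = 700 := by decide +kernel

lemma okB15 : verify tbB hsB15 11515 = true := by decide +kernel

lemma lenB15 : hsB15.length = 244 := by decide +kernel

lemma lastB : tbB.get 11758 = 0 := by decide +kernel

theorem refuteB {pr : ℕ → ℕ → ℕ → ℕ → Prop} {c : ℕ → ℕ → ℕ → ℕ → ℕ → Prop}
    (hF : Fam 6 wtB 4 5 pr c) : False := by
  have h0 : ∀ i, i < 1015 → Holds (asg pr c) (tbB.get i) := fun i hi =>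
    okcs_spec (by norm_num) (by norm_num) (by norm_num) hF dsB 0 initB i (Nat.zero_le _) (by rw [initlenB]; omega)
  have h1 : ∀ i, i < 1715 → Holds (asg pr c) (tbB.get i) := fun i hi =>
    verify_spec hsB0 1015 h0 okB0 i (by rw [lenB0]; omega)
  have h2 : ∀ i, i < 2415 → Holds (asg pr c) (tbB.get i) := fun i hi =>
    verify_spec hsB1 1715 h1 okB1 i (by rw [lenB1]; omega)
  have h3 : ∀ i, i < 3115 → Holds (asg pr c) (tbB.get i) := fun i hi =>
    verify_spec hsB2 2415 h2 okB2 i (by rw [lenB2]; omega)
  have h4 : ∀ i, i < 3815 → Holds (asg pr c) (tbB.get i) := fun i hi =>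
    verify_spec hsB3 3115 h3 okB3 i (by rw [lenB3]; omega)
  have h5 : ∀ i, i < 4515 → Holds (asg pr c) (tbB.get i) := fun i hi =>
    verify_spec hsB4 3815 h4 okB4 i (by rw [lenB4]; omega)
  have h6 : ∀ i, i < 5215 → Holds (asg pr c) (tbB.get i) := fun i hi =>
    verify_spec hsB5 4515 h5 okB5 i (by rw [lenB5]; omega)
  have h7 : ∀ i, i < 5915 → Holds (asg pr c) (tbB.get i) := fun i hi =>
    verify_spec hsB6 5215 h6 okB6 i (by rw [lenB6]; omega)
  have h8 : ∀ i, i < 6615 → Holds (asg pr c) (tbB.get i) := fun i hi =>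
    verify_spec hsB7 5915 h7 okB7 i (by rw [lenB7]; omega)
  have h9 : ∀ i, i < 7315 → Holds (asg pr c) (tbB.get i) := fun i hi =>
    verify_spec hsB8 6615 h8 okB8 i (by rw [lenB8]; omega)
  have h10 : ∀ i, i < 8015 → Holds (asg pr c) (tbB.get i) := fun i hi =>
    verify_spec hsB9 7315 h9 okB9 i (by rw [lenB9]; omega)
  have h11 : ∀ i, i < 8715 → Holds (asg pr c) (tbB.get i) := fun i hi =>
    verify_spec hsB10 8015 h10 okB10 i (by rw [lenB10]; omega)
  have h12 : ∀ i, i < 9415 → Holds (asg pr c) (tbB.get i) := fun i hi =>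
    verify_spec hsB11 8715 h11 okB11 i (by rw [lenB11]; omega)
  have h13 : ∀ i, i < 10115 → Holds (asg pr c) (tbB.get i) := fun i hi =>
    verify_spec hsB12 9415 h12 okB12 i (by rw [lenB12]; omega)
  have h14 : ∀ i, i < 10815 → Holds (asg pr c) (tbB.get i) := fun i hi =>
    verify_spec hsB13 10115 h13 okB13 i (by rw [lenB13]; omega)
  have h15 : ∀ i, i < 11515 → Holds (asg pr c) (tbB.get i) := fun i hi =>
    verify_spec hsB14 10815 h14 okB14 i (by rw [lenB14]; omega)
  have h16 : ∀ i, i < 11759 → Holds (asg pr c) (tbB.get i) := fun i hi =>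
    verify_spec hsB15 11515 h15 okB15 i (by rw [lenB15]; omega)
  have h := h16 11758 (by norm_num)
  rw [lastB] at h
  exact not_holds_zero h

end Pool.Agent.Work.MP_4dbef5_lc.Sem
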