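import Pool.Agent.Work.MP_4dbef5_lc.Upper
import Pool.Agent.Work.MP_4dbef5_lc.RefA
import Pool.Agent.Work.MP_4dbef5_lc.RefB
import Pool.Agent.Results.MP_4dbef5_lc.TwoSidedBounds

/-!
Pair weights of a class with a no-clash teacher using pairs.
-/

namespace Pool.Agent.Work.MP_4dbef5_lc.Glue

open Finset Pool.Agent.Results.MP_4dbef5_lc.TwoSidedBounds
open Pool.Agent.Work.MP_4dbef5_lc.Upper Pool.Agent.Work.MP_4dbef5_lc.Sem

variable {n : ℕ}

/-- Number of concepts taught by the pair `{x, y}`. -/
def pw (𝒞 : Finset (Concept n)) (T : Concept n → Finset (Fin n)) (x y : Fin n) : ℕ :=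
  (𝒞.filter fun C => T C = {x, y}).card

/-- `C` differs from the base concept at `x`. -/
def dv (C0 C : Concept n) (x : Fin n) : Prop := C x ≠ C0 x

/-- `C` is the concept belonging to an item. -/
def It (𝒞 : Finset (Concept n)) (T : Concept n → Finset (Fin n)) (C0 : Concept n) (pt : ℕ → Fin n)
    (i j pi pj : ℕ) (C : Concept n) : Prop :=
  C ∈ 𝒞 ∧ T C = {pt i, pt j} ∧ (dv C0 C (pt i) ↔ pi = 1) ∧ (dv C0 C (pt j) ↔ pj = 1)

lemma dv_iff {C0 C C' : Concept n} {x : Fin n} : (dv C0 C x ↔ dv C0 C' x) ↔ C x = C' x := by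
  unfold dv
  cases C x <;> cases C' x <;> cases C0 x <;> simp

lemma It.unique {𝒞 : Finset (Concept n)} {T : Concept n → Finset (Fin n)} (hT : IsNCTeacher 𝒞 T)
    {C0 : Concept n} {pt : ℕ → Fin n} {i j pi pj : ℕ} {C C' : Concept n}
    (h : It 𝒞 T C0 pt i j pi pj C) (h' : It 𝒞 T C0 pt i j pi pj C') : C = C' := by
  by_contra hne
  obtain ⟨x, hx, hxx⟩ := hT C h.1 C' h'.1 hne
  rw [h.2.1, h'.2.1, union_self, mem_insert, mem_singleton] at hx
  rcases hx with rfl | rfl
  · exact hxx (dv_iff.mp (h.2.2.1.trans h'.2.2.1.symm))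
  · exact hxx (dv_iff.mp (h.2.2.2.trans h'.2.2.2.symm))

lemma pop : ∀ m < 16, ((range 4).filter fun q => m.testBit q = false).card +
    ((m.testBit 0).toNat + (m.testBit 1).toNat + (m.testBit 2).toNat + (m.testBit 3).toNat) = 4 := by
  decide

lemma code_inj : ∀ x x' z y y' t : Bool,
    (if x = z then 0 else 2) + (if y = t then 0 else 1) =
      (if x' = z then 0 else 2) + (if y' = t then 0 else 1) → x = x' ∧ y = y' := by
  decide

theorem fam {𝒞 : Finset (Concept n)} {T : Concept n → Finset (Fin n)} (hT : IsNCTeacher 𝒞 T)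
    {C0 : Concept n} {pt : ℕ → Fin n} {p : ℕ} {wt : ℕ → ℕ → ℕ} {a0 b0 : ℕ}
    (hinj : ∀ i < p, ∀ j < p, pt i = pt j → i = j)
    (hw : ∀ i j, i < j → j < p → wt i j ≤ pw 𝒞 T (pt i) (pt j))
    (hC0 : C0 ∈ 𝒞) (hT0 : T C0 = {pt a0, pt b0}) :
    Fam p wt a0 b0 (fun i j pi pj => ∃ C, It 𝒞 T C0 pt i j pi pj C)
      (fun i j pi pj z => ∃ C, It 𝒞 T C0 pt i j pi pj C ∧ dv C0 C (pt z)) := by
  classical
  constructor
  · rintro i j pi pj ⟨C, hC⟩
    refine ⟨⟨?_, fun h => ⟨C, hC, hC.2.2.1.mpr h⟩⟩, ⟨?_, fun h => ⟨C, hC, hC.2.2.2.mpr h⟩⟩⟩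
    · rintro ⟨C', hC', h⟩; exact hC'.2.2.1.mp h
    · rintro ⟨C', hC', h⟩; exact hC'.2.2.2.mp h
  · rintro i j pi pj i' j' pi' pj' hij hj hij' hj' - - - - hne ⟨C, hC⟩ ⟨C', hC'⟩
    have hCC : C ≠ C' := by
      intro h
      have h1 : ({pt i, pt j} : Finset (Fin n)) = {pt i', pt j'} := by
        rw [← hC.2.1, ← hC'.2.1, h]
      have h2 : pt i ∈ ({pt i', pt j'} : Finset (Fin n)) := by rw [← h1]; simp
      have h3 : pt j ∈ ({pt i', pt j'} : Finset (Fin n)) := by rw [← h1]; simp
      rw [mem_insert, mem_singleton] at h2 h3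
      have a1 : pt i = pt i' → i = i' := hinj i (by omega) i' (by omega)
      have a2 : pt i = pt j' → i = j' := hinj i (by omega) j' (by omega)
      have a3 : pt j = pt i' → j = i' := hinj j (by omega) i' (by omega)
      have a4 : pt j = pt j' → j = j' := hinj j (by omega) j' (by omega)
      rcases h2 with h2 | h2 <;> rcases h3 with h3 | h3
      · have := a1 h2; have := a3 h3; omega
      · have := a1 h2; have := a4 h3; omega
      · have := a2 h2; have := a3 h3; omega
      · have := a2 h2; have := a4 h3; omega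
    obtain ⟨x, hx, hxx⟩ := hT C hC.1 C' hC'.1 hCC
    have e1 : ∀ z, (∃ D, It 𝒞 T C0 pt i j pi pj D ∧ dv C0 D (pt z)) ↔ dv C0 C (pt z) := by
      intro z
      refine ⟨?_, fun h => ⟨C, hC, h⟩⟩
      rintro ⟨D, hD, h⟩
      rwa [hD.unique hT hC] at h
    have e2 : ∀ z, (∃ D, It 𝒞 T C0 pt i' j' pi' pj' D ∧ dv C0 D (pt z)) ↔ dv C0 C' (pt z) := by
      intro z
      refine ⟨?_, fun h => ⟨C', hC', h⟩⟩
      rintro ⟨D, hD, h⟩
      rwa [hD.unique hT hC'] at h
    rw [hC.2.1, hC'.2.1] at hx
    simp only [mem_union, mem_insert, mem_singleton] at hx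
    have hz : ∃ z, (z = i ∨ z = j ∨ z = i' ∨ z = j') ∧ x = pt z := by
      rcases hx with (rfl | rfl) | (rfl | rfl)
      · exact ⟨i, by simp, rfl⟩
      · exact ⟨j, by simp, rfl⟩
      · exact ⟨i', by simp, rfl⟩
      · exact ⟨j', by simp, rfl⟩
    obtain ⟨z, hz, rfl⟩ := hz
    refine ⟨z, hz, ?_⟩
    rw [e1, e2, dv_iff]
    exact hxx
  · intro i j m hij hj hm hpop
    by_contra hno
    push Not at hno
    have hcard := hw i j hij hj
    unfold pw at hcard
    have hle := card_le_card_of_injOn
      (fun C : Concept n => (if C (pt i) = C0 (pt i) then 0 else 2) +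
        (if C (pt j) = C0 (pt j) then 0 else 1))
      (s := 𝒞.filter fun C => T C = {pt i, pt j})
      (t := (range 4).filter fun q => m.testBit q = false)
      (by
        intro C hC
        simp only [coe_filter, Set.mem_ofPred_eq] at hC
        simp only [coe_filter, Set.mem_ofPred_eq, mem_range]
        by_cases h1 : C (pt i) = C0 (pt i) <;> by_cases h2 : C (pt j) = C0 (pt j)
        · simp only [h1, h2, if_true]
          refine ⟨by norm_num, ?_⟩
          by_contra hb
          rw [Bool.not_eq_false] at hb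
          exact hno 0 (by norm_num) hb C ⟨hC.1, hC.2, by simp [dv, h1], by simp [dv, h2]⟩
        · simp only [h1, h2, if_true, if_false]
          refine ⟨by norm_num, ?_⟩
          by_contra hb
          rw [Bool.not_eq_false] at hb
          exact hno 1 (by norm_num) hb C ⟨hC.1, hC.2, by simp [dv, h1], by simp [dv, h2]⟩
        · simp only [h1, h2, if_true, if_false]
          refine ⟨by norm_num, ?_⟩
          by_contra hb
          rw [Bool.not_eq_false] at hb
          exact hno 2 (by norm_num) hb C ⟨hC.1, hC.2, by simp [dv, h1], by simp [dv, h2]⟩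
        · simp only [h1, h2, if_false]
          refine ⟨by norm_num, ?_⟩
          by_contra hb
          rw [Bool.not_eq_false] at hb
          exact hno 3 (by norm_num) hb C ⟨hC.1, hC.2, by simp [dv, h1], by simp [dv, h2]⟩)
      (by
        intro C hC C' hC' heq
        simp only [coe_filter, Set.mem_ofPred_eq] at hC hC'
        simp only at heq
        by_contra hne
        obtain ⟨x, hx, hxx⟩ := hT C hC.1 C' hC'.1 hne
        rw [hC.2, hC'.2, union_self, mem_insert, mem_singleton] at hx
        obtain ⟨k1, k2⟩ := code_inj _ _ _ _ _ _ heq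
        rcases hx with rfl | rfl
        · exact hxx k1
        · exact hxx k2)
    have := pop m hm
    omega
  · refine ⟨⟨C0, hC0, hT0, by simp [dv], by simp [dv]⟩, ?_⟩
    rintro z - ⟨C, hC, h⟩
    have : C = C0 := hC.unique hT ⟨hC0, hT0, by simp [dv], by simp [dv]⟩
    rw [this] at h
    exact h rfl

lemma small {𝒞 : Finset (Concept n)} {T : Concept n → Finset (Fin n)} (hT : IsNCTeacher 𝒞 T)
    (X : Finset (Fin n)) : (𝒞.filter fun C => T C ⊆ X).card ≤ 2 ^ X.card := by
  classical
  have hinj : Set.InjOn (fun C : Concept n => X.filter fun x => C x = true)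
      (𝒞.filter fun C => T C ⊆ X : Finset (Concept n)) := by
    intro C hC C' hC' heq
    simp only [Finset.coe_filter, Set.mem_ofPred_eq] at hC hC'
    by_contra hne
    obtain ⟨x, hx, hxx⟩ := hT C hC.1 C' hC'.1 hne
    have hxX : x ∈ X := by
      rcases Finset.mem_union.mp hx with h | h
      · exact hC.2 h
      · exact hC'.2 h
    apply hxx
    have h1 : x ∈ (X.filter fun x => C x = true) ↔ x ∈ (X.filter fun x => C' x = true) := by
      simp only at heq
      rw [heq]
    simp only [Finset.mem_filter, hxX, true_and] at h1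
    cases hCx : C x <;> cases hCx' : C' x <;> simp_all
  have := Finset.card_le_card_of_injOn (fun C : Concept n => X.filter fun x => C x = true)
    (s := 𝒞.filter fun C => T C ⊆ X) (t := X.powerset)
    (by
      intro C _
      simp only [Finset.mem_coe, Finset.mem_powerset]
      exact Finset.filter_subset _ _) hinj
  rwa [Finset.card_powerset] at this

lemma pair_ne {a b c d : Fin n} (h : a ≠ c) (h' : a ≠ d) : ({a, b} : Finset (Fin n)) ≠ {c, d} := by
  intro he
  have : a ∈ ({c, d} : Finset (Fin n)) := by rw [← he]; simp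
  simp only [mem_insert, mem_singleton] at this
  tauto

lemma pair_ne' {a b c d : Fin n} (h : b ≠ c) (h' : b ≠ d) : ({a, b} : Finset (Fin n)) ≠ {c, d} := by
  intro he
  have : b ∈ ({c, d} : Finset (Fin n)) := by rw [← he]; simp
  simp only [mem_insert, mem_singleton] at this
  tauto

lemma card_add {𝒞 : Finset (Concept n)} {T : Concept n → Finset (Fin n)} (S : Finset (Fin n))
    (L : Finset (Finset (Fin n))) (hS : S ∉ L) :
    (𝒞.filter fun C => T C = S).card + (𝒞.filter fun C => T C ∈ L).card =
      (𝒞.filter fun C => T C ∈ insert S L).card := by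
  classical
  rw [← card_union_of_disjoint]
  · congr 1
    ext C
    simp only [mem_union, mem_filter, mem_insert]
    tauto
  · rw [disjoint_left]
    intro C hC hC'
    rw [mem_filter] at hC hC'
    exact hS (hC.2 ▸ hC'.2)

/-- Five named points. -/
def ptA (a b c d e : Fin n) : ℕ → Fin n
  | 0 => a
  | 1 => b
  | 2 => c
  | 3 => d
  | _ => e

/-- Six named points. -/
def ptB (a b c d e f : Fin n) : ℕ → Fin n
  | 0 => a
  | 1 => b
  | 2 => c
  | 3 => d
  | 4 => e
  | _ => f

lemma inj_of_lt {p : ℕ} {pt : ℕ → Fin n} (h : ∀ i j, i < j → j < p → pt i ≠ pt j) :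
    ∀ i < p, ∀ j < p, pt i = pt j → i = j := by
  intro i hi j hj he
  rcases lt_trichotomy i j with h1 | h1 | h1
  · exact absurd he (h i j h1 hj)
  · exact h1
  · exact absurd he.symm (h j i h1 hi)

lemma ptA_inj {a b c d e : Fin n} (hab : a ≠ b) (hac : a ≠ c) (had : a ≠ d) (hae : a ≠ e)
    (hbc : b ≠ c) (hbd : b ≠ d) (hbe : b ≠ e) (hcd : c ≠ d) (hce : c ≠ e) (hde : d ≠ e) :
    ∀ i < 5, ∀ j < 5, ptA a b c d e i = ptA a b c d e j → i = j := by
  apply inj_of_lt
  intro i j hij hj
  interval_cases j <;> interval_cases i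
  · exact hab
  · exact hac
  · exact hbc
  · exact had
  · exact hbd
  · exact hcd
  · exact hae
  · exact hbe
  · exact hce
  · exact hde

lemma ptB_inj {a b c d e f : Fin n} (hab : a ≠ b) (hac : a ≠ c) (had : a ≠ d) (hae : a ≠ e)
    (haf : a ≠ f) (hbc : b ≠ c) (hbd : b ≠ d) (hbe : b ≠ e) (hbf : b ≠ f) (hcd : c ≠ d)
    (hce : c ≠ e) (hcf : c ≠ f) (hde : d ≠ e) (hdf : d ≠ f) (hef : e ≠ f) :
    ∀ i < 6, ∀ j < 6, ptB a b c d e f i = ptB a b c d e f j → i = j := by
  apply inj_of_lt
  intro i j hij hj
  interval_cases j <;> interval_cases i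
  · exact hab
  · exact hac
  · exact hbc
  · exact had
  · exact hbd
  · exact hcd
  · exact hae
  · exact hbe
  · exact hce
  · exact hde
  · exact haf
  · exact hbf
  · exact hcf
  · exact hdf
  · exact hef

theorem good {𝒞 : Finset (Concept n)} {T : Concept n → Finset (Fin n)} (hT : IsNCTeacher 𝒞 T)
    (h2 : ∀ C ∈ 𝒞, (T C).card = 2) : Good (pw 𝒞 T) := by
  classical
  constructor
  · intro x y
    unfold pw
    rw [pair_comm]
  · intro x
    unfold pw
    rw [card_eq_zero, filter_eq_empty_iff]
    intro C hC he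
    have := h2 C hC
    rw [he] at this
    simp at this
  · intro a b c hab hac hbc
    have h1 := small hT {a, b, c}
    have hX : ({a, b, c} : Finset (Fin n)).card = 3 := card_eq_three.mpr ⟨a, b, c, hab, hac, hbc, rfl⟩
    rw [hX] at h1
    have e1 : pw 𝒞 T a b + (pw 𝒞 T a c + (pw 𝒞 T b c + (𝒞.filter fun C => T C ∈ (∅ : Finset (Finset (Fin n)))).card)) =
        (𝒞.filter fun C => T C ∈ ({{a, b}, {a, c}, {b, c}} : Finset (Finset (Fin n)))).card := by
      unfold pw
      rw [card_add _ _ (by simp), card_add, card_add]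
      · rfl
      · simp only [mem_insert, insert_empty_eq, mem_singleton, not_or]
        exact ⟨pair_ne' hab.symm hbc, pair_ne hab hac⟩
      · simp only [insert_empty_eq, mem_singleton]
        exact pair_ne hab hac
    have e2 : (𝒞.filter fun C => T C ∈ ({{a, b}, {a, c}, {b, c}} : Finset (Finset (Fin n)))).card ≤
        (𝒞.filter fun C => T C ⊆ {a, b, c}).card := by
      refine card_le_card fun C hC => ?_
      rw [mem_filter] at hC ⊢
      refine ⟨hC.1, ?_⟩
      have := hC.2
      simp only [mem_insert, mem_singleton] at this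
      rcases this with h | h | h <;> rw [h] <;> simp [insert_subset_iff]
    omega
  · intro a b c d hab hac had hbc hbd hcd
    have h1 := small hT {a, b, c, d}
    have hX : ({a, b, c, d} : Finset (Fin n)).card = 4 := by
      rw [card_insert_of_notMem (by simp [hab, hac, had]), card_eq_three.mpr ⟨b, c, d, hbc, hbd, hcd, rfl⟩]
    rw [hX] at h1
    have e1 : pw 𝒞 T a b + (pw 𝒞 T a c + (pw 𝒞 T a d + (pw 𝒞 T b c + (pw 𝒞 T b d + (pw 𝒞 T c d +
        (𝒞.filter fun C => T C ∈ (∅ : Finset (Finset (Fin n)))).card))))) =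
        (𝒞.filter fun C => T C ∈ ({{a, b}, {a, c}, {a, d}, {b, c}, {b, d}, {c, d}} :
          Finset (Finset (Fin n)))).card := by
      unfold pw
      rw [card_add _ _ (by simp), card_add, card_add, card_add, card_add, card_add]
      · rfl
      · simp only [mem_insert, insert_empty_eq, mem_singleton, not_or]
        exact ⟨pair_ne' hab.symm hbc, pair_ne' hab.symm hbd, pair_ne hab hac, pair_ne hab had,
          pair_ne hac had⟩
      · simp only [mem_insert, insert_empty_eq, mem_singleton, not_or]
        exact ⟨pair_ne' hac.symm hcd, pair_ne hab hac, pair_ne hab had, pair_ne hac had⟩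
      · simp only [mem_insert, insert_empty_eq, mem_singleton, not_or]
        exact ⟨pair_ne hab hac, pair_ne hab had, pair_ne hac had⟩
      · simp only [mem_insert, insert_empty_eq, mem_singleton, not_or]
        exact ⟨pair_ne' hbc.symm hcd, pair_ne hbc hbd⟩
      · simp only [insert_empty_eq, mem_singleton]
        exact pair_ne hbc hbd
    have e2 : (𝒞.filter fun C => T C ∈ ({{a, b}, {a, c}, {a, d}, {b, c}, {b, d}, {c, d}} :
          Finset (Finset (Fin n)))).card ≤
        (𝒞.filter fun C => T C ⊆ {a, b, c, d}).card := by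
      refine card_le_card fun C hC => ?_
      rw [mem_filter] at hC ⊢
      refine ⟨hC.1, ?_⟩
      have := hC.2
      simp only [mem_insert, mem_singleton] at this
      rcases this with h | h | h | h | h | h <;> rw [h] <;> simp [insert_subset_iff]
    omega
  · intro a b c d e hab hac had hae hbc hbd hbe hcd hce hde w1 w2 w3 w4 w5 w6 w7 w8 w9 w10
    obtain ⟨C0, hC0⟩ : ∃ C0, C0 ∈ 𝒞.filter fun C => T C = {d, e} := by
      apply card_pos.mp
      change 0 < pw 𝒞 T d e
      omega
    rw [mem_filter] at hC0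
    refine refuteA (fam hT (pt := ptA a b c d e) (C0 := C0) (a0 := 3) (b0 := 4) ?_ ?_ hC0.1 hC0.2)
    · exact ptA_inj hab hac had hae hbc hbd hbe hcd hce hde
    · intro i j hij hj
      interval_cases j <;> interval_cases i
      · exact w1.ge
      · exact w2.ge
      · exact w3.ge
      · exact w5.ge
      · exact w7.ge
      · exact w9.ge
      · exact w6.ge
      · exact w8.ge
      · exact w10.ge
      · exact w4.ge
  · intro a b c d e f hab hac had hae haf hbc hbd hbe hbf hcd hce hcf hde hdf hef
      w1 w2 w3 w4 w5 w6 w7 w8 w9 w10 w11 w12 w13 w14 w15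
    obtain ⟨C0, hC0⟩ : ∃ C0, C0 ∈ 𝒞.filter fun C => T C = {e, f} := by
      apply card_pos.mp
      change 0 < pw 𝒞 T e f
      omega
    rw [mem_filter] at hC0
    refine refuteB (fam hT (pt := ptB a b c d e f) (C0 := C0) (a0 := 4) (b0 := 5) ?_ ?_ hC0.1 hC0.2)
    · exact ptB_inj hab hac had hae haf hbc hbd hbe hbf hcd hce hcf hde hdf hef
    · intro i j hij hj
      interval_cases j <;> interval_cases i
      · exact w1.ge
      · exact w2.ge
      · exact w4.ge
      · exact w3.ge
      · exact w5.ge
      · exact w6.ge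
      · exact w8.ge
      · exact w9.ge
      · exact w10.ge
      · exact w11.ge
      · exact w12.ge
      · exact w13.ge
      · exact w14.ge
      · exact w15.ge
      · exact w7.ge

lemma dbl_pw {𝒞 : Finset (Concept n)} {T : Concept n → Finset (Fin n)}
    (h2 : ∀ C ∈ 𝒞, (T C).card = 2) : dbl (pw 𝒞 T) univ = 2 * 𝒞.card := by
  classical
  unfold dbl pw
  simp only [card_eq_sum_ones, sum_filter]
  have h : ∀ x : Fin n, (∑ y : Fin n, ∑ C ∈ 𝒞, if T C = {x, y} then 1 else 0) =
      ∑ C ∈ 𝒞, ∑ y : Fin n, if T C = {x, y} then 1 else 0 := fun x => sum_comm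
  simp only [h]
  rw [sum_comm, mul_sum]
  refine sum_congr rfl fun C hC => ?_
  obtain ⟨a, b, hab, hTC⟩ := card_eq_two.mp (h2 C hC)
  rw [hTC]
  have hx : ∀ x : Fin n, (∑ y : Fin n, if ({a, b} : Finset (Fin n)) = {x, y} then 1 else 0) =
      (if x = a then 1 else 0) + (if x = b then 1 else 0) := by
    intro x
    by_cases hxa : x = a
    · subst hxa
      have : ∀ y : Fin n, ({x, b} : Finset (Fin n)) = {x, y} ↔ y = b := by
        intro y
        constructor
        · intro h
          have hb : b ∈ ({x, y} : Finset (Fin n)) := by rw [← h]; simp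
          simp only [mem_insert, mem_singleton] at hb
          rcases hb with hb | hb
          · exact absurd hb.symm hab
          · exact hb.symm
        · rintro rfl; rfl
      simp [this, hab]
    · by_cases hxb : x = b
      · subst hxb
        have : ∀ y : Fin n, ({a, x} : Finset (Fin n)) = {x, y} ↔ y = a := by
          intro y
          constructor
          · intro h
            have hb : a ∈ ({x, y} : Finset (Fin n)) := by rw [← h]; simp
            simp only [mem_insert, mem_singleton] at hb
            rcases hb with hb | hb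
            · exact absurd hb hab
            · exact hb.symm
          · rintro rfl; exact pair_comm _ _
        simp [this, hxa]
      · have : ∀ y : Fin n, ¬ ({a, b} : Finset (Fin n)) = {x, y} := by
          intro y h
          have hb : x ∈ ({a, b} : Finset (Fin n)) := by rw [h]; simp
          simp only [mem_insert, mem_singleton] at hb
          tauto
        simp [this, hxa, hxb]
  simp only [hx, sum_add_distrib]
  simp

/-- Upper bound for classes with a teacher using pairs. -/
theorem upper_class (hn : 3 ≤ n) {𝒞 : Finset (Concept n)} (h : Teachable 𝒞 2) :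
    8 * 𝒞.card ≤ n * (9 * n - 4) := by
  obtain ⟨T, hT, hc⟩ := h.exact (by omega)
  have h1 := upper (good hT hc) n univ (by simp) hn
  rw [dbl_pw hc] at h1
  omega

end Pool.Agent.Work.MP_4dbef5_lc.Glue
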