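import Pool.Agent.Work.MP_4dbef5_lc.Chk

/-!
The clauses describing a small clash-free family with given numbers of concepts per teaching pair,
and a check that the initial clauses of a table are of this kind.
-/

namespace Pool.Agent.Work.MP_4dbef5_lc.Sem

open Pool.Agent.Work.MP_4dbef5_lc.Chk

/-- Number of the variable for the value at `z` of the item with teaching pair `a < b` and values
`pa, pb` there; `z = 6` stands for the presence of the item. -/
def vv (a b pa pb z : ℕ) : ℕ := 1 + (z + 7 * (pb + 2 * (pa + 2 * (b + 6 * a))))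

/-- A small clash-free family: `pr` says which items are present, `c` gives their values. -/
structure Fam (p : ℕ) (wt : ℕ → ℕ → ℕ) (a0 b0 : ℕ) (pr : ℕ → ℕ → ℕ → ℕ → Prop)
    (c : ℕ → ℕ → ℕ → ℕ → ℕ → Prop) : Prop where
  own : ∀ a b pa pb, pr a b pa pb → (c a b pa pb a ↔ pa = 1) ∧ (c a b pa pb b ↔ pb = 1)
  clash : ∀ a b pa pb a' b' pa' pb', a < b → b < p → a' < b' → b' < p → pa < 2 → pb < 2 →
    pa' < 2 → pb' < 2 → (a ≠ a' ∨ b ≠ b') → pr a b pa pb → pr a' b' pa' pb' →
    ∃ z, (z = a ∨ z = b ∨ z = a' ∨ z = b') ∧ ¬ (c a b pa pb z ↔ c a' b' pa' pb' z)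
  many : ∀ a b m, a < b → b < p → m < 16 →
    4 < (m.testBit 0).toNat + (m.testBit 1).toNat + (m.testBit 2).toNat + (m.testBit 3).toNat
      + wt a b →
    ∃ q < 4, m.testBit q = true ∧ pr a b (q / 2) (q % 2)
  base : pr a0 b0 0 0 ∧ ∀ z, z < p → ¬ c a0 b0 0 0 z

/-- The assignment belonging to a family. -/
def asg (pr : ℕ → ℕ → ℕ → ℕ → Prop) (c : ℕ → ℕ → ℕ → ℕ → ℕ → Prop) (v : ℕ) : Prop :=
  if (v - 1) % 7 = 6 then pr ((v - 1) / 168) ((v - 1) / 28 % 6) ((v - 1) / 14 % 2) ((v - 1) / 7 % 2)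
  else c ((v - 1) / 168) ((v - 1) / 28 % 6) ((v - 1) / 14 % 2) ((v - 1) / 7 % 2) ((v - 1) % 7)

lemma asg_pr {pr c} {a b pa pb : ℕ} (hb : b < 6) (ha : pa < 2) (hpb : pb < 2) :
    asg pr c (vv a b pa pb 6) ↔ pr a b pa pb := by
  unfold asg vv
  have e1 : (1 + (6 + 7 * (pb + 2 * (pa + 2 * (b + 6 * a)))) - 1) = 6 + 7 * (pb + 2 * (pa + 2 * (b + 6 * a))) := by omega
  rw [e1]
  have h0 : (6 + 7 * (pb + 2 * (pa + 2 * (b + 6 * a)))) % 7 = 6 := by omega
  have h1 : (6 + 7 * (pb + 2 * (pa + 2 * (b + 6 * a)))) / 168 = a := by omega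
  have h2 : (6 + 7 * (pb + 2 * (pa + 2 * (b + 6 * a)))) / 28 % 6 = b := by omega
  have h3 : (6 + 7 * (pb + 2 * (pa + 2 * (b + 6 * a)))) / 14 % 2 = pa := by omega
  have h4 : (6 + 7 * (pb + 2 * (pa + 2 * (b + 6 * a)))) / 7 % 2 = pb := by omega
  rw [h0, h1, h2, h3, h4]
  simp

lemma asg_c {pr c} {a b pa pb z : ℕ} (hb : b < 6) (ha : pa < 2) (hpb : pb < 2) (hz : z < 6) :
    asg pr c (vv a b pa pb z) ↔ c a b pa pb z := by
  unfold asg vv
  have e1 : (1 + (z + 7 * (pb + 2 * (pa + 2 * (b + 6 * a)))) - 1) = z + 7 * (pb + 2 * (pa + 2 * (b + 6 * a))) := by omega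
  rw [e1]
  have h0 : (z + 7 * (pb + 2 * (pa + 2 * (b + 6 * a)))) % 7 = z := by omega
  have h1 : (z + 7 * (pb + 2 * (pa + 2 * (b + 6 * a)))) / 168 = a := by omega
  have h2 : (z + 7 * (pb + 2 * (pa + 2 * (b + 6 * a)))) / 28 % 6 = b := by omega
  have h3 : (z + 7 * (pb + 2 * (pa + 2 * (b + 6 * a)))) / 14 % 2 = pa := by omega
  have h4 : (z + 7 * (pb + 2 * (pa + 2 * (b + 6 * a)))) / 7 % 2 = pb := by omega
  rw [h0, h1, h2, h3, h4, if_neg (by omega)]

/-- The clause with the given literals. -/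
def encL : List ℕ → ℕ
  | [] => 0
  | l :: L => l + 65536 * encL L

lemma holds_encL {α : ℕ → Prop} {L : List ℕ} (hL : ∀ l ∈ L, l < 65536) {l : ℕ} (hl : l ∈ L)
    (ht : LitTrue α l) : Holds α (encL L) := by
  induction L with
  | nil => simp at hl
  | cons x L ih =>
    rcases List.mem_cons.mp hl with h | h
    · refine ⟨0, ?_⟩
      have hx := hL x (by simp)
      have : encL (x :: L) / 65536 ^ 0 % 65536 = l := by
        rw [h]
        simp only [encL, pow_zero, Nat.div_one]
        omega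
      rw [this]
      exact ht
    · obtain ⟨k, hk⟩ := ih (fun y hy => hL y (by simp [hy])) h
      refine ⟨k + 1, ?_⟩
      have hx := hL x (by simp)
      have : encL (x :: L) / 65536 ^ (k + 1) = encL L / 65536 ^ k := by
        rw [pow_succ', ← Nat.div_div_eq_div_mul]
        congr 1
        simp only [encL]
        omega
      rw [this]
      exact hk

/-- Digit of a descriptor. -/
def dg (d k : ℕ) : ℕ := d / 8 ^ k % 8

/-- Literals of the clause saying that two items do not clash. -/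
def clits (a b pa pb a' b' pa' pb' : ℕ) : List ℕ :=
  (2 * vv a b pa pb 6 + 1) :: (2 * vv a' b' pa' pb' 6 + 1) ::
    ((if a' = a ∨ a' = b then [] else [2 * vv a b pa pb a' + pa']) ++
    ((if b' = a ∨ b' = b then [] else [2 * vv a b pa pb b' + pb']) ++
    ((if a = a' ∨ a = b' then [] else [2 * vv a' b' pa' pb' a + pa]) ++
      (if b = a' ∨ b = b' then [] else [2 * vv a' b' pa' pb' b + pb]))))

lemma vv_lt {a b pa pb z : ℕ} (ha : a < 6) (hb : b < 6) (hpa : pa < 2) (hpb : pb < 2) (hz : z < 7) :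
    2 * vv a b pa pb z + 1 < 65536 := by
  unfold vv; omega

lemma vv_pos (a b pa pb z : ℕ) : 1 ≤ vv a b pa pb z := by unfold vv; omega

lemma litTrue_even {α : ℕ → Prop} {v : ℕ} (hv : 1 ≤ v) (h : α v) : LitTrue α (2 * v) := by
  refine ⟨by omega, Or.inl ⟨by omega, ?_⟩⟩
  have : 2 * v / 2 = v := by omega
  rw [this]; exact h

lemma litTrue_odd {α : ℕ → Prop} {v : ℕ} (h : ¬ α v) : LitTrue α (2 * v + 1) := by
  refine ⟨by omega, Or.inr ⟨by omega, ?_⟩⟩
  have : (2 * v + 1) / 2 = v := by omega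
  rw [this]; exact h

lemma litTrue_bit {α : ℕ → Prop} {v p : ℕ} (hv : 1 ≤ v) (hp : p < 2) (h : ¬ (α v ↔ p = 1)) :
    LitTrue α (2 * v + p) := by
  rcases (by omega : p = 0 ∨ p = 1) with rfl | rfl
  · apply litTrue_even hv
    by_contra hc
    exact h ⟨fun h' => absurd h' hc, fun h' => absurd h' (by omega)⟩
  · apply litTrue_odd
    intro hc
    exact h ⟨fun _ => rfl, fun _ => hc⟩

lemma clits_spec {p : ℕ} {wt : ℕ → ℕ → ℕ} {a0 b0 : ℕ} {pr : ℕ → ℕ → ℕ → ℕ → Prop}
    {c : ℕ → ℕ → ℕ → ℕ → ℕ → Prop} (hp : p ≤ 6) (hF : Fam p wt a0 b0 pr c)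
    {a b pa pb a' b' pa' pb' : ℕ} (hab : a < b) (hb : b < p) (hab' : a' < b') (hb' : b' < p)
    (hpa : pa < 2) (hpb : pb < 2) (hpa' : pa' < 2) (hpb' : pb' < 2) (hne : a ≠ a' ∨ b ≠ b')
    (h1 : a = a' → pa = pa') (h2 : a = b' → pa = pb') (h3 : b = a' → pb = pa')
    (h4 : b = b' → pb = pb') :
    Holds (asg pr c) (encL (clits a b pa pb a' b' pa' pb')) := by
  have hlt : ∀ l ∈ clits a b pa pb a' b' pa' pb', l < 65536 := by
    intro l hl
    have k1 := vv_lt (a := a) (b := b) (pa := pa) (pb := pb) (z := 6) (by omega) (by omega) hpa hpb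
      (by omega)
    have k2 := vv_lt (a := a') (b := b') (pa := pa') (pb := pb') (z := 6) (by omega) (by omega)
      hpa' hpb' (by omega)
    have k3 := vv_lt (a := a) (b := b) (pa := pa) (pb := pb) (z := a') (by omega) (by omega) hpa
      hpb (by omega)
    have k4 := vv_lt (a := a) (b := b) (pa := pa) (pb := pb) (z := b') (by omega) (by omega) hpa
      hpb (by omega)
    have k5 := vv_lt (a := a') (b := b') (pa := pa') (pb := pb') (z := a) (by omega) (by omega)
      hpa' hpb' (by omega)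
    have k6 := vv_lt (a := a') (b := b') (pa := pa') (pb := pb') (z := b) (by omega) (by omega)
      hpa' hpb' (by omega)
    unfold clits at hl
    simp only [List.mem_cons, List.mem_append] at hl
    rcases hl with h | h | h | h | h | h
    · omega
    · omega
    · split_ifs at h
      · simp at h
      · simp only [List.mem_singleton] at h; omega
    · split_ifs at h
      · simp at h
      · simp only [List.mem_singleton] at h; omega
    · split_ifs at h
      · simp at h
      · simp only [List.mem_singleton] at h; omega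
    · split_ifs at h
      · simp at h
      · simp only [List.mem_singleton] at h; omega
  by_cases hA : pr a b pa pb
  swap
  · apply holds_encL hlt (l := 2 * vv a b pa pb 6 + 1) (by simp [clits])
    apply litTrue_odd
    rw [asg_pr (by omega) hpa hpb]
    exact hA
  by_cases hB : pr a' b' pa' pb'
  swap
  · apply holds_encL hlt (l := 2 * vv a' b' pa' pb' 6 + 1) (by simp [clits])
    apply litTrue_odd
    rw [asg_pr (by omega) hpa' hpb']
    exact hB
  obtain ⟨oa, ob⟩ := hF.own _ _ _ _ hA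
  obtain ⟨oa', ob'⟩ := hF.own _ _ _ _ hB
  obtain ⟨z, hz, hzz⟩ := hF.clash a b pa pb a' b' pa' pb' hab hb hab' hb' hpa hpb hpa' hpb' hne hA hB
  rcases hz with rfl | rfl | rfl | rfl
  · by_cases e1 : z = a'
    · subst e1; have := h1 rfl; subst this; exact absurd (oa.trans oa'.symm) hzz
    · by_cases e2 : z = b'
      · subst e2; have := h2 rfl; subst this; exact absurd (oa.trans ob'.symm) hzz
      · apply holds_encL hlt (l := 2 * vv a' b' pa' pb' z + pa) (by
          unfold clits; simp [e1, e2])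
        apply litTrue_bit (vv_pos _ _ _ _ _) hpa
        rw [asg_c (by omega) hpa' hpb' (by omega)]
        intro h
        exact hzz (oa.trans h.symm)
  · by_cases e1 : z = a'
    · subst e1; have := h3 rfl; subst this; exact absurd (ob.trans oa'.symm) hzz
    · by_cases e2 : z = b'
      · subst e2; have := h4 rfl; subst this; exact absurd (ob.trans ob'.symm) hzz
      · apply holds_encL hlt (l := 2 * vv a' b' pa' pb' z + pb) (by
          unfold clits; simp [e1, e2])
        apply litTrue_bit (vv_pos _ _ _ _ _) hpb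
        rw [asg_c (by omega) hpa' hpb' (by omega)]
        intro h
        exact hzz (ob.trans h.symm)
  · by_cases e1 : z = a
    · subst e1; have := h1 rfl; subst this; exact absurd (oa.trans oa'.symm) hzz
    · by_cases e2 : z = b
      · subst e2; have := h3 rfl; subst this; exact absurd (ob.trans oa'.symm) hzz
      · apply holds_encL hlt (l := 2 * vv a b pa pb z + pa') (by
          unfold clits; simp [e1, e2])
        apply litTrue_bit (vv_pos _ _ _ _ _) hpa'
        rw [asg_c (by omega) hpa hpb (by omega)]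
        intro h
        exact hzz (h.trans oa'.symm)
  · by_cases e1 : z = a
    · subst e1; have := h2 rfl; subst this; exact absurd (oa.trans ob'.symm) hzz
    · by_cases e2 : z = b
      · subst e2; have := h4 rfl; subst this; exact absurd (ob.trans ob'.symm) hzz
      · apply holds_encL hlt (l := 2 * vv a b pa pb z + pb') (by
          unfold clits; simp [e1, e2])
        apply litTrue_bit (vv_pos _ _ _ _ _) hpb'
        rw [asg_c (by omega) hpa hpb (by omega)]
        intro h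
        exact hzz (h.trans ob'.symm)

/-- Literals of the clause saying that one of the items with patterns in `m` is present. -/
def alits (a b m : ℕ) : List ℕ :=
  ((if m.testBit 0 then [2 * vv a b 0 0 6] else []) ++
  ((if m.testBit 1 then [2 * vv a b 0 1 6] else []) ++
  ((if m.testBit 2 then [2 * vv a b 1 0 6] else []) ++
    (if m.testBit 3 then [2 * vv a b 1 1 6] else []))))

lemma alits_spec {p : ℕ} {wt : ℕ → ℕ → ℕ} {a0 b0 : ℕ} {pr : ℕ → ℕ → ℕ → ℕ → Prop}
    {c : ℕ → ℕ → ℕ → ℕ → ℕ → Prop} (hp : p ≤ 6) (hF : Fam p wt a0 b0 pr c)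
    {a b m : ℕ} (hab : a < b) (hb : b < p) (hm : m < 16)
    (h : 4 < (m.testBit 0).toNat + (m.testBit 1).toNat + (m.testBit 2).toNat + (m.testBit 3).toNat
      + wt a b) :
    Holds (asg pr c) (encL (alits a b m)) := by
  have hlt : ∀ l ∈ alits a b m, l < 65536 := by
    intro l hl
    have k1 := vv_lt (a := a) (b := b) (pa := 0) (pb := 0) (z := 6) (by omega) (by omega)
      (by omega) (by omega) (by omega)
    have k2 := vv_lt (a := a) (b := b) (pa := 0) (pb := 1) (z := 6) (by omega) (by omega)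
      (by omega) (by omega) (by omega)
    have k3 := vv_lt (a := a) (b := b) (pa := 1) (pb := 0) (z := 6) (by omega) (by omega)
      (by omega) (by omega) (by omega)
    have k4 := vv_lt (a := a) (b := b) (pa := 1) (pb := 1) (z := 6) (by omega) (by omega)
      (by omega) (by omega) (by omega)
    unfold alits at hl
    simp only [List.mem_append] at hl
    rcases hl with h | h | h | h <;>
    · split_ifs at h
      · simp only [List.mem_singleton] at h; omega
      · simp at h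
  obtain ⟨q, hq, hbit, hpr⟩ := hF.many a b m hab hb hm h
  rcases (by omega : q = 0 ∨ q = 1 ∨ q = 2 ∨ q = 3) with rfl | rfl | rfl | rfl
  · apply holds_encL hlt (l := 2 * vv a b 0 0 6) (by unfold alits; simp [hbit])
    apply litTrue_even (vv_pos _ _ _ _ _)
    rw [asg_pr (by omega) (by omega) (by omega)]
    exact hpr
  · apply holds_encL hlt (l := 2 * vv a b 0 1 6) (by unfold alits; simp [hbit])
    apply litTrue_even (vv_pos _ _ _ _ _)
    rw [asg_pr (by omega) (by omega) (by omega)]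
    exact hpr
  · apply holds_encL hlt (l := 2 * vv a b 1 0 6) (by unfold alits; simp [hbit])
    apply litTrue_even (vv_pos _ _ _ _ _)
    rw [asg_pr (by omega) (by omega) (by omega)]
    exact hpr
  · apply holds_encL hlt (l := 2 * vv a b 1 1 6) (by unfold alits; simp [hbit])
    apply litTrue_even (vv_pos _ _ _ _ _)
    rw [asg_pr (by omega) (by omega) (by omega)]
    exact hpr

/-- Check of an initial clause against its descriptor. -/
def okc (p : ℕ) (wt : ℕ → ℕ → ℕ) (a0 b0 d c : ℕ) : Bool :=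
  match dg d 0 with
  | 0 =>
    decide (dg d 1 < dg d 2 ∧ dg d 2 < p ∧ dg d 5 < dg d 6 ∧ dg d 6 < p ∧ dg d 3 < 2 ∧ dg d 4 < 2 ∧
      dg d 7 < 2 ∧ dg d 8 < 2 ∧ (dg d 1 ≠ dg d 5 ∨ dg d 2 ≠ dg d 6) ∧
      (dg d 1 = dg d 5 → dg d 3 = dg d 7) ∧ (dg d 1 = dg d 6 → dg d 3 = dg d 8) ∧
      (dg d 2 = dg d 5 → dg d 4 = dg d 7) ∧ (dg d 2 = dg d 6 → dg d 4 = dg d 8)) &&
    Nat.beq (encL (clits (dg d 1) (dg d 2) (dg d 3) (dg d 4) (dg d 5) (dg d 6) (dg d 7) (dg d 8))) c
  | 1 =>
    decide (dg d 1 < dg d 2 ∧ dg d 2 < p ∧ dg d 3 + 8 * dg d 4 < 16 ∧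
      4 < ((dg d 3 + 8 * dg d 4).testBit 0).toNat + ((dg d 3 + 8 * dg d 4).testBit 1).toNat +
        ((dg d 3 + 8 * dg d 4).testBit 2).toNat + ((dg d 3 + 8 * dg d 4).testBit 3).toNat +
        wt (dg d 1) (dg d 2)) &&
    Nat.beq (encL (alits (dg d 1) (dg d 2) (dg d 3 + 8 * dg d 4))) c
  | 2 => Nat.beq (2 * vv a0 b0 0 0 6) c
  | _ => decide (dg d 1 < p) && Nat.beq (2 * vv a0 b0 0 0 (dg d 1) + 1) c

lemma okc_spec {p : ℕ} {wt : ℕ → ℕ → ℕ} {a0 b0 : ℕ} {pr : ℕ → ℕ → ℕ → ℕ → Prop}
    {c : ℕ → ℕ → ℕ → ℕ → ℕ → Prop} (hp : p ≤ 6) (ha0 : a0 < 6) (hb0 : b0 < 6)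
    (hF : Fam p wt a0 b0 pr c) {d e : ℕ} (h : okc p wt a0 b0 d e = true) :
    Holds (asg pr c) e := by
  unfold okc at h
  split at h
  · rw [Bool.and_eq_true, decide_eq_true_eq] at h
    obtain ⟨⟨h1, h2, h3, h4, h5, h6, h7, h8, h9, h10, h11, h12, h13⟩, h14⟩ := h
    rw [← Nat.eq_of_beq_eq_true h14]
    exact clits_spec hp hF h1 h2 h3 h4 h5 h6 h7 h8 h9 h10 h11 h12 h13
  · rw [Bool.and_eq_true, decide_eq_true_eq] at h
    obtain ⟨⟨h1, h2, h3, h4⟩, h14⟩ := h
    rw [← Nat.eq_of_beq_eq_true h14]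
    exact alits_spec hp hF h1 h2 h3 h4
  · rw [← Nat.eq_of_beq_eq_true h]
    refine ⟨0, ?_⟩
    have k := vv_lt (a := a0) (b := b0) (pa := 0) (pb := 0) (z := 6) ha0 hb0
      (by omega) (by omega) (by omega)
    have : 2 * vv a0 b0 0 0 6 / 65536 ^ 0 % 65536 = 2 * vv a0 b0 0 0 6 := by
      rw [pow_zero, Nat.div_one]; omega
    rw [this]
    apply litTrue_even (vv_pos _ _ _ _ _)
    rw [asg_pr hb0 (by omega) (by omega)]
    exact hF.base.1
  · rw [Bool.and_eq_true, decide_eq_true_eq] at h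
    obtain ⟨h1, h14⟩ := h
    rw [← Nat.eq_of_beq_eq_true h14]
    refine ⟨0, ?_⟩
    have k := vv_lt (a := a0) (b := b0) (pa := 0) (pb := 0) (z := dg d 1) ha0 hb0
      (by omega) (by omega) (by omega)
    have : (2 * vv a0 b0 0 0 (dg d 1) + 1) / 65536 ^ 0 % 65536 = 2 * vv a0 b0 0 0 (dg d 1) + 1 := by
      rw [pow_zero, Nat.div_one]; omega
    rw [this]
    apply litTrue_odd
    rw [asg_c hb0 (by omega) (by omega) (by omega)]
    exact hF.base.2 _ h1

/-- Check consecutive initial clauses. -/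
noncomputable def okcs (p : ℕ) (wt : ℕ → ℕ → ℕ) (a0 b0 : ℕ) (T : DB) : List ℕ → ℕ → Bool
  | [], _ => true
  | d :: ds, n => okc p wt a0 b0 d (T.get n) && okcs p wt a0 b0 T ds (n + 1)

lemma okcs_spec {p : ℕ} {wt : ℕ → ℕ → ℕ} {a0 b0 : ℕ} {pr : ℕ → ℕ → ℕ → ℕ → Prop}
    {c : ℕ → ℕ → ℕ → ℕ → ℕ → Prop} (hp : p ≤ 6) (ha0 : a0 < 6) (hb0 : b0 < 6)
    (hF : Fam p wt a0 b0 pr c) {T : DB} : ∀ (ds : List ℕ) (n : ℕ),
      okcs p wt a0 b0 T ds n = true → ∀ i, n ≤ i → i < n + ds.length → Holds (asg pr c) (T.get i) := by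
  intro ds
  induction ds with
  | nil => intro n _ i h1 h2; simp at h2; omega
  | cons d ds ih =>
    intro n h i h1 h2
    simp only [okcs, Bool.and_eq_true] at h
    simp only [List.length_cons] at h2
    rcases Nat.eq_or_lt_of_le h1 with h3 | h3
    · rw [← h3]; exact okc_spec hp ha0 hb0 hF h.1
    · exact ih (n + 1) h.2 i h3 (by omega)

end Pool.Agent.Work.MP_4dbef5_lc.Sem
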