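import Mathlib

/-!
The extremal problem for pair weights: total weight of a set of `m ≥ 3` points is at most
`m (9 m - 4) / 8`.
-/

namespace Pool.Agent.Work.MP_4dbef5_lc.Upper

open Finset

variable {V : Type} [DecidableEq V]

/-- Twice the total weight of a set. -/
def dbl (w : V → V → ℕ) (X : Finset V) : ℕ := ∑ x ∈ X, ∑ y ∈ X, w x y

/-- Pair weights without the two forbidden patterns. -/
structure Good (w : V → V → ℕ) : Prop where
  symm : ∀ x y, w x y = w y x
  diag : ∀ x, w x x = 0
  three : ∀ a b c, a ≠ b → a ≠ c → b ≠ c → w a b + w a c + w b c ≤ 8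
  four : ∀ a b c d, a ≠ b → a ≠ c → a ≠ d → b ≠ c → b ≠ d → c ≠ d →
    w a b + w a c + w a d + w b c + w b d + w c d ≤ 16
  patA : ∀ a b c d e, a ≠ b → a ≠ c → a ≠ d → a ≠ e → b ≠ c → b ≠ d → b ≠ e → c ≠ d → c ≠ e →
    d ≠ e → w a b = 2 → w a c = 2 → w b c = 2 → w d e = 2 → w a d = 3 → w a e = 3 → w b d = 3 →
    w b e = 3 → w c d = 3 → w c e = 3 → False
  patB : ∀ a b c d e f, a ≠ b → a ≠ c → a ≠ d → a ≠ e → a ≠ f → b ≠ c → b ≠ d → b ≠ e → b ≠ f →
    c ≠ d → c ≠ e → c ≠ f → d ≠ e → d ≠ f → e ≠ f →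
    w a b = 2 → w a c = 2 → w a d = 2 → w b c = 2 → w b d = 2 → w c d = 2 → w e f = 1 →
    w a e = 3 → w b e = 3 → w c e = 3 → w d e = 3 → w a f = 3 → w b f = 3 → w c f = 3 →
    w d f = 3 → False

variable {w : V → V → ℕ}

lemma dbl_empty : dbl w ∅ = 0 := by simp [dbl]

/-- Weight between a point and a set. -/
def deg (w : V → V → ℕ) (v : V) (X : Finset V) : ℕ := ∑ x ∈ X, w v x

lemma dbl_insert (h : Good w) {v : V} {X : Finset V} (hv : v ∉ X) :
    dbl w (insert v X) = dbl w X + 2 * deg w v X := by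
  unfold dbl deg
  rw [sum_insert hv, sum_insert hv, h.diag v]
  have : ∑ x ∈ X, ∑ y ∈ insert v X, w x y = ∑ x ∈ X, (w v x + ∑ y ∈ X, w x y) := by
    refine sum_congr rfl fun x _ => ?_
    rw [sum_insert hv, h.symm x v]
  rw [this, sum_add_distrib]
  ring

lemma deg_insert {u v : V} {X : Finset V} (hu : u ∉ X) :
    deg w v (insert u X) = w v u + deg w v X := by
  unfold deg; rw [sum_insert hu]

lemma dbl_union (h : Good w) {X Y : Finset V} (hd : Disjoint X Y) :
    dbl w (X ∪ Y) = dbl w X + dbl w Y + 2 * ∑ v ∈ Y, deg w v X := by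
  induction Y using Finset.induction_on with
  | empty => simp [dbl_empty]
  | insert v Y hv ih =>
    rw [disjoint_insert_right] at hd
    have h1 : v ∉ X ∪ Y := by
      rw [mem_union]; rintro (h | h)
      · exact hd.1 h
      · exact hv h
    rw [union_insert, dbl_insert h h1, ih hd.2, dbl_insert h hv, sum_insert hv]
    have : deg w v (X ∪ Y) = deg w v X + deg w v Y := by
      unfold deg; rw [sum_union hd.2]
    rw [this]
    ring

/-- Five points with three 4-subsets of weight 16 do not exist. -/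
lemma coreA (h : Good w) {a b c d e : V} (hab : a ≠ b) (hac : a ≠ c) (had : a ≠ d) (hae : a ≠ e)
    (hbc : b ≠ c) (hbd : b ≠ d) (hbe : b ≠ e) (hcd : c ≠ d) (hce : c ≠ e) (hde : d ≠ e)
    (h1 : w b c + w b d + w b e + w c d + w c e + w d e = 16)
    (h2 : w a c + w a d + w a e + w c d + w c e + w d e = 16)
    (h3 : w a b + w a d + w a e + w b d + w b e + w d e = 16)
    (h4 : w a b + w a c + w a d + w a e + w b c + w b d + w b e + w c d + w c e + w d e = 26) :
    False := by
  have t1 := h.three a b c hab hac hbc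
  have t2 := h.three a b d hab had hbd
  have t3 := h.three a b e hab hae hbe
  have t4 := h.three a c d hac had hcd
  have t5 := h.three a c e hac hae hce
  have t6 := h.three a d e had hae hde
  have t7 := h.three b c d hbc hbd hcd
  have t8 := h.three b c e hbc hbe hce
  have t9 := h.three b d e hbd hbe hde
  have t10 := h.three c d e hcd hce hde
  have hP := h.patA a b c d e hab hac had hae hbc hbd hbe hcd hce hde
  clear hab hac had hae hbc hbd hbe hcd hce hde h
  generalize w a b = ab at *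
  generalize w a c = ac at *
  generalize w a d = ad at *
  generalize w a e = ae at *
  generalize w b c = bc at *
  generalize w b d = bd at *
  generalize w b e = be at *
  generalize w c d = cd at *
  generalize w c e = ce at *
  generalize w d e = de at *
  have e7 : bc + bd + cd = 8 := by clear t1 t2 t3 t4 t5 t6 h2 h3 h4; omega
  have e8 : bc + be + ce = 8 := by clear t1 t2 t3 t4 t5 t6 h2 h3 h4; omega
  have e9 : bd + be + de = 8 := by clear t1 t2 t3 t4 t5 t6 h2 h3 h4; omega
  have e10 : cd + ce + de = 8 := by clear t1 t2 t3 t4 t5 t6 h2 h3 h4; omega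
  have e4 : ac + ad + cd = 8 := by clear t1 t2 t3 t7 t8 t9 h1 h3 h4 e7 e8 e9; omega
  have e5 : ac + ae + ce = 8 := by clear t1 t2 t3 t7 t8 t9 h1 h3 h4 e7 e8 e9; omega
  have e6 : ad + ae + de = 8 := by clear t1 t2 t3 t7 t8 t9 h1 h3 h4 e7 e8 e9; omega
  have e2 : ab + ad + bd = 8 := by clear t1 t4 t5 t7 t8 t10 h1 h2 h4 e7 e8 e10 e4 e5; omega
  have e3 : ab + ae + be = 8 := by clear t1 t4 t5 t7 t8 t10 h1 h2 h4 e7 e8 e10 e4 e5; omega
  clear t1 t2 t3 t4 t5 t6 t7 t8 t9 t10
  exact hP (by omega) (by omega) (by omega)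
    (by omega) (by omega) (by omega) (by omega) (by omega) (by omega) (by omega)

/-- The total weight of five points is at most 25. -/
lemma five (h : Good w) {a b c d e : V} (hab : a ≠ b) (hac : a ≠ c) (had : a ≠ d) (hae : a ≠ e)
    (hbc : b ≠ c) (hbd : b ≠ d) (hbe : b ≠ e) (hcd : c ≠ d) (hce : c ≠ e) (hde : d ≠ e) :
    w a b + w a c + w a d + w a e + w b c + w b d + w b e + w c d + w c e + w d e ≤ 25 := by
  have t1 := h.three a b c hab hac hbc
  have t2 := h.three a b d hab had hbd
  have t3 := h.three a b e hab hae hbe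
  have t4 := h.three a c d hac had hcd
  have t5 := h.three a c e hac hae hce
  have t6 := h.three a d e had hae hde
  have t7 := h.three b c d hbc hbd hcd
  have t8 := h.three b c e hbc hbe hce
  have t9 := h.three b d e hbd hbe hde
  have t10 := h.three c d e hcd hce hde
  by_contra hcon
  have h80 : 3 * (w a b + w a c + w a d + w a e + w b c + w b d + w b e + w c d + w c e + w d e) ≤
      80 := by linarith
  clear t1 t2 t3 t4 t5 t6 t7 t8 t9 t10
  have h26 : w a b + w a c + w a d + w a e + w b c + w b d + w b e + w c d + w c e + w d e = 26 := by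
    omega
  have f1 := h.four b c d e hbc hbd hbe hcd hce hde
  have f2 := h.four a c d e hac had hae hcd hce hde
  have f3 := h.four a b d e hab had hae hbd hbe hde
  have f4 := h.four a b c e hab hac hae hbc hbe hce
  have f5 := h.four a b c d hab hac had hbc hbd hcd
  -- names: Fi = 16 or not
  have key : ∀ (P Q R S T : ℕ), P ≤ 16 → Q ≤ 16 → R ≤ 16 → S ≤ 16 → T ≤ 16 →
      P + Q + R + S + T = 78 →
      (P = 16 ∧ Q = 16 ∧ R = 16) ∨ (P = 16 ∧ Q = 16 ∧ S = 16) ∨ (P = 16 ∧ Q = 16 ∧ T = 16) ∨
      (P = 16 ∧ R = 16 ∧ S = 16) ∨ (P = 16 ∧ R = 16 ∧ T = 16) ∨ (P = 16 ∧ S = 16 ∧ T = 16) ∨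
      (Q = 16 ∧ R = 16 ∧ S = 16) ∨ (Q = 16 ∧ R = 16 ∧ T = 16) ∨ (Q = 16 ∧ S = 16 ∧ T = 16) ∨
      (R = 16 ∧ S = 16 ∧ T = 16) := by
    intro P Q R S T; omega
  have s := h.symm
  have h78 : (w b c + w b d + w b e + w c d + w c e + w d e) +
      (w a c + w a d + w a e + w c d + w c e + w d e) +
      (w a b + w a d + w a e + w b d + w b e + w d e) +
      (w a b + w a c + w a e + w b c + w b e + w c e) +
      (w a b + w a c + w a d + w b c + w b d + w c d) = 78 := by
    clear f1 f2 f3 f4 f5; omega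
  have hk := key _ _ _ _ _ f1 f2 f3 f4 f5 h78
  clear f1 f2 f3 f4 f5 h78 h80 hcon key
  rcases hk with
    ⟨p, q, r⟩ | ⟨p, q, r⟩ | ⟨p, q, r⟩ | ⟨p, q, r⟩ | ⟨p, q, r⟩ | ⟨p, q, r⟩ | ⟨p, q, r⟩ | ⟨p, q, r⟩ |
    ⟨p, q, r⟩ | ⟨p, q, r⟩
  · exact coreA h hab hac had hae hbc hbd hbe hcd hce hde p q r h26
  · -- missing a, b, d full: role (a, b, d; c, e)
    exact coreA h (a := a) (b := b) (c := d) (d := c) (e := e) hab had hac hae hbd hbc hbe
      hcd.symm hde hce (by rw [s d c]; omega) (by rw [s d c]; omega) (by omega)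
      (by rw [s d c]; omega)
  · exact coreA h (a := a) (b := b) (c := e) (d := c) (e := d) hab hae hac had hbe hbc hbd
      hce.symm hde.symm hcd (by rw [s e c, s e d]; omega) (by rw [s e c, s e d]; omega) (by omega)
      (by rw [s e c, s e d]; omega)
  · exact coreA h (a := a) (b := c) (c := d) (d := b) (e := e) hac had hab hae hcd hbc.symm hce
      hbd.symm hde hbe (by rw [s c b, s d b]; omega) (by rw [s d b]; omega) (by rw [s c b]; omega)
      (by rw [s c b, s d b]; omega)
  · exact coreA h (a := a) (b := c) (c := e) (d := b) (e := d) hac hae hab had hce hbc.symm hcd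
      hbe.symm hde.symm hbd (by rw [s c b, s e b, s e d]; omega) (by rw [s e b, s e d]; omega)
      (by rw [s c b]; omega) (by rw [s c b, s e b, s e d]; omega)
  · exact coreA h (a := a) (b := d) (c := e) (d := b) (e := c) had hae hab hac hde hbd.symm hcd.symm
      hbe.symm hce.symm hbc (by rw [s d b, s d c, s e b, s e c]; omega)
      (by rw [s e b, s e c]; omega) (by rw [s d b, s d c]; omega)
      (by rw [s d b, s d c, s e b, s e c]; omega)
  · exact coreA h (a := b) (b := c) (c := d) (d := a) (e := e) hbc hbd hab.symm hbe hcd hac.symm hce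
      had.symm hde hae (by rw [s c a, s d a]; omega) (by rw [s b a, s d a]; omega)
      (by rw [s b a, s c a]; omega) (by rw [s b a, s c a, s d a]; omega)
  · exact coreA h (a := b) (b := c) (c := e) (d := a) (e := d) hbc hbe hab.symm hbd hce hac.symm hcd
      hae.symm hde.symm had (by rw [s c a, s e a, s e d]; omega) (by rw [s b a, s e a, s e d]; omega)
      (by rw [s b a, s c a]; omega) (by rw [s b a, s c a, s e a, s e d]; omega)
  · exact coreA h (a := b) (b := d) (c := e) (d := a) (e := c) hbd hbe hab.symm hbc hde had.symm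
      hcd.symm hae.symm hce.symm hac (by rw [s d a, s d c, s e a, s e c]; omega)
      (by rw [s b a, s e a, s e c]; omega) (by rw [s b a, s d a, s d c]; omega)
      (by rw [s b a, s d a, s d c, s e a, s e c]; omega)
  · exact coreA h (a := c) (b := d) (c := e) (d := a) (e := b) hcd hce hac.symm hbc.symm hde
      had.symm hbd.symm hae.symm hbe.symm hab (by rw [s d a, s d b, s e a, s e b]; omega)
      (by rw [s c a, s c b, s e a, s e b]; omega) (by rw [s c a, s c b, s d a, s d b]; omega)
      (by rw [s c a, s c b, s d a, s d b, s e a, s e b]; omega)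

lemma dbl_three (h : Good w) {X : Finset V} (hX : X.card = 3) : dbl w X ≤ 16 := by
  obtain ⟨a, b, c, hab, hac, hbc, rfl⟩ := card_eq_three.mp hX
  have := h.three a b c hab hac hbc
  rw [dbl_insert h (by simp [hab, hac]), dbl_insert h (by simp [hbc])]
  simp only [deg, sum_insert (show b ∉ ({c} : Finset V) by simp [hbc]), sum_singleton, dbl,
    h.diag]
  omega

lemma dbl_four (h : Good w) {X : Finset V} (hX : X.card = 4) : dbl w X ≤ 32 := by
  obtain ⟨a, t, hat, rfl, ht⟩ := card_eq_succ.mp hX
  obtain ⟨b, c, d, hbc, hbd, hcd, rfl⟩ := card_eq_three.mp ht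
  have hab : a ≠ b := by rintro rfl; simp at hat
  have hac : a ≠ c := by rintro rfl; simp at hat
  have had : a ≠ d := by rintro rfl; simp at hat
  have := h.four a b c d hab hac had hbc hbd hcd
  rw [dbl_insert h hat, dbl_insert h (by simp [hbc, hbd]), dbl_insert h (by simp [hcd])]
  simp only [deg, sum_insert (show b ∉ ({c, d} : Finset V) by simp [hbc, hbd]),
    sum_insert (show c ∉ ({d} : Finset V) by simp [hcd]), sum_singleton, dbl, h.diag]
  omega

lemma exp_five (h : Good w) {a b c d e : V} (hab : a ≠ b) (hac : a ≠ c) (had : a ≠ d) (hae : a ≠ e)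
    (hbc : b ≠ c) (hbd : b ≠ d) (hbe : b ≠ e) (hcd : c ≠ d) (hce : c ≠ e) (hde : d ≠ e) :
    dbl w {a, b, c, d, e} =
      2 * (w a b + w a c + w a d + w a e + w b c + w b d + w b e + w c d + w c e + w d e) := by
  rw [dbl_insert h (by simp [hab, hac, had, hae]), dbl_insert h (by simp [hbc, hbd, hbe]),
    dbl_insert h (by simp [hcd, hce]), dbl_insert h (by simp [hde])]
  simp only [deg, sum_insert (show b ∉ ({c, d, e} : Finset V) by simp [hbc, hbd, hbe]),
    sum_insert (show c ∉ ({d, e} : Finset V) by simp [hcd, hce]),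
    sum_insert (show d ∉ ({e} : Finset V) by simp [hde]), sum_singleton, dbl, h.diag]
  ring

lemma dbl_five (h : Good w) {X : Finset V} (hX : X.card = 5) : dbl w X ≤ 50 := by
  obtain ⟨a, t, hat, rfl, ht⟩ := card_eq_succ.mp hX
  obtain ⟨b, t', hbt, rfl, ht'⟩ := card_eq_succ.mp ht
  obtain ⟨c, d, e, hcd, hce, hde, rfl⟩ := card_eq_three.mp ht'
  have hab : a ≠ b := by rintro rfl; simp at hat
  have hac : a ≠ c := by rintro rfl; simp at hat
  have had : a ≠ d := by rintro rfl; simp at hat
  have hae : a ≠ e := by rintro rfl; simp at hat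
  have hbc : b ≠ c := by rintro rfl; simp at hbt
  have hbd : b ≠ d := by rintro rfl; simp at hbt
  have hbe : b ≠ e := by rintro rfl; simp at hbt
  have := five h hab hac had hae hbc hbd hbe hcd hce hde
  rw [exp_five h hab hac had hae hbc hbd hbe hcd hce hde]
  omega

lemma dbl_even (h : Good w) (X : Finset V) : ∃ k, dbl w X = 2 * k := by
  induction X using Finset.induction_on with
  | empty => exact ⟨0, by simp [dbl_empty]⟩
  | insert v X hv ih =>
    obtain ⟨k, hk⟩ := ih
    exact ⟨k + deg w v X, by rw [dbl_insert h hv, hk]; ring⟩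

lemma deg_erase (h : Good w) {v x : V} {X : Finset V} (hx : x ∈ X) :
    deg w v X = w v x + deg w v (X.erase x) := by
  have := deg_insert (w := w) (v := v) (notMem_erase x X)
  rwa [insert_erase hx] at this

lemma dbl_erase (h : Good w) {x : V} {X : Finset V} (hx : x ∈ X) :
    dbl w X = dbl w (X.erase x) + 2 * deg w x X := by
  have := dbl_insert h (notMem_erase x X)
  rw [insert_erase hx] at this
  have h2 := deg_erase h (v := x) hx
  rw [h.diag, zero_add] at h2
  rw [h2]; exact this

lemma sum_dbl_erase (h : Good w) (X : Finset V) :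
    ∑ x ∈ X, dbl w (X.erase x) + 2 * dbl w X = X.card * dbl w X := by
  have h1 : ∑ x ∈ X, (dbl w (X.erase x) + 2 * deg w x X) = ∑ x ∈ X, dbl w X :=
    sum_congr rfl fun x hx => (dbl_erase h hx).symm
  rw [sum_add_distrib, ← mul_sum, sum_const, smul_eq_mul] at h1
  exact h1

lemma sum_deg_erase (h : Good w) (v : V) (X : Finset V) :
    ∑ x ∈ X, deg w v (X.erase x) + deg w v X = X.card * deg w v X := by
  have h1 : ∑ x ∈ X, (w v x + deg w v (X.erase x)) = ∑ x ∈ X, deg w v X :=
    sum_congr rfl fun x hx => (deg_erase h hx).symm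
  rw [sum_add_distrib, sum_const, smul_eq_mul] at h1
  rw [← h1, add_comm]
  rfl

/-- In a 5-set of weight 25 whose 4-subsets weigh at most 15 they weigh exactly 15. -/
lemma tight (h : Good w) {P : Finset V} (hP : P.card = 5) (h50 : dbl w P = 50)
    (h4 : ∀ x ∈ P, dbl w (P.erase x) ≤ 30) : ∀ x ∈ P, dbl w (P.erase x) = 30 := by
  have h1 := sum_dbl_erase h P
  rw [hP, h50] at h1
  have h2 : ∑ x ∈ P, dbl w (P.erase x) = ∑ x ∈ P, 30 := by
    rw [sum_const, hP, smul_eq_mul]; omega
  intro x hx
  by_contra hne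
  have h3 : ∑ x ∈ P, dbl w (P.erase x) < ∑ x ∈ P, 30 :=
    sum_lt_sum h4 ⟨x, hx, lt_of_le_of_ne (h4 x hx) hne⟩
  omega

lemma claim (h : Good w) {P : Finset V} (hP : P.card = 5) (h50 : dbl w P = 50) {v : V}
    (hv : v ∉ P) (h4 : ∀ Q ⊆ insert v P, Q.card = 4 → dbl w Q ≤ 30) : deg w v P ≤ 11 := by
  by_contra hcon
  push Not at hcon
  have hcard4 : ∀ x ∈ P, (P.erase x).card = 4 := fun x hx => by rw [card_erase_of_mem hx, hP]
  have ht := tight h hP h50 fun x hx => h4 _ ((erase_subset _ _).trans (subset_insert _ _))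
    (hcard4 x hx)
  -- each weight is at least `deg - 10`
  have hge : ∀ x ∈ P, deg w v P ≤ 10 + w v x := by
    intro x hx
    have hvx : v ∉ P.erase x := fun h' => hv (mem_of_mem_erase h')
    have h1 := dbl_five h (X := insert v (P.erase x)) (by rw [card_insert_of_notMem hvx, hcard4 x hx])
    rw [dbl_insert h hvx, ht x hx] at h1
    have h2 := deg_erase h (v := v) hx
    omega
  have h12 : deg w v P = 12 := by
    have h1 : ∑ x ∈ P, deg w v P ≤ ∑ x ∈ P, (10 + w v x) := sum_le_sum hge
    rw [sum_add_distrib, sum_const, sum_const, hP, smul_eq_mul, smul_eq_mul] at h1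
    change _ ≤ 5 * 10 + deg w v P at h1
    omega
  have hge2 : ∀ x ∈ P, 2 ≤ w v x := fun x hx => by have := hge x hx; omega
  -- twins
  have htwin : ∀ x ∈ P, w v x = 2 → ∀ y ∈ P, y ≠ x → w v y = w x y := by
    intro x hx hx2 y hy hyx
    have hvx : v ∉ P.erase x := fun h' => hv (mem_of_mem_erase h')
    have hyx' : y ∈ P.erase x := mem_erase.mpr ⟨hyx, hy⟩
    have hc : (insert v (P.erase x)).card = 5 := by rw [card_insert_of_notMem hvx, hcard4 x hx]
    have hd := deg_erase h (v := v) hx
    have h1 : dbl w (insert v (P.erase x)) = 50 := by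
      rw [dbl_insert h hvx, ht x hx]; omega
    have h2 := tight h hc h1 (by
      intro z hz
      refine h4 _ ((erase_subset _ _).trans (insert_subset_insert _ (erase_subset _ _))) ?_
      rw [card_erase_of_mem hz, hc]) y (mem_insert_of_mem hyx')
    have h3 := ht y hy
    have hvy : v ≠ y := fun h' => hv (h' ▸ hy)
    have e1 : (insert v (P.erase x)).erase y = insert v ((P.erase x).erase y) :=
      erase_insert_of_ne hvy
    have e2 : P.erase y = insert x ((P.erase x).erase y) := by
      ext z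
      simp only [mem_erase, mem_insert]
      constructor
      · rintro ⟨hz1, hz2⟩
        by_cases hzx : z = x
        · exact Or.inl hzx
        · exact Or.inr ⟨hz1, hzx, hz2⟩
      · rintro (rfl | ⟨hz1, hz2, hz3⟩)
        · exact ⟨hyx.symm, hx⟩
        · exact ⟨hz1, hz3⟩
    have hv' : v ∉ (P.erase x).erase y := fun h' => hvx (mem_of_mem_erase h')
    have hx' : x ∉ (P.erase x).erase y := fun h' => by simp at h'
    rw [e1, dbl_insert h hv'] at h2
    rw [e2, dbl_insert h hx'] at h3
    have h5 := deg_erase h (v := v) hyx'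
    have h6 := deg_erase h (v := x) hyx'
    have h7 := dbl_erase h hx
    have h8 := deg_erase h (v := x) hx
    rw [h.diag] at h8
    have h9 := ht x hx
    omega
  -- the two kinds of points
  set A := P.filter fun x => w v x = 2 with hA
  set B := P.filter fun x => ¬ w v x = 2 with hB
  have hAB : A.card + B.card = 5 := by rw [← hP]; exact card_filter_add_card_filter_not _
  have hsum : ∑ x ∈ A, w v x + ∑ x ∈ B, w v x = 12 := by
    rw [← h12]; exact sum_filter_add_sum_filter_not _ _ _
  have hsA : ∑ x ∈ A, w v x = A.card * 2 := by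
    rw [sum_congr rfl (g := fun _ => 2) fun x hx => (mem_filter.mp hx).2, sum_const, smul_eq_mul]
  have hB3 : ∀ x ∈ B, 3 ≤ w v x := fun x hx => by
    have h1 := hge2 x (mem_filter.mp hx).1
    have h2 := (mem_filter.mp hx).2
    omega
  have hsB : B.card * 3 ≤ ∑ x ∈ B, w v x := by
    have := sum_le_sum hB3
    rwa [sum_const, smul_eq_mul] at this
  have hB12 : B.card = 1 ∨ B.card = 2 := by
    have : B.card ≠ 0 := by
      intro h0
      rw [card_eq_zero] at h0
      rw [h0, sum_empty] at hsum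
      omega
    omega
  have hPAB : P = A ∪ B := by rw [hA, hB]; exact (filter_union_filter_not_eq _ _).symm
  have hAP : ∀ x ∈ A, x ∈ P ∧ w v x = 2 := fun x hx => mem_filter.mp hx
  have hBP : ∀ x ∈ B, x ∈ P := fun x hx => (mem_filter.mp hx).1
  have hABne : ∀ x ∈ A, ∀ y ∈ B, x ≠ y := by
    intro x hx y hy hxy
    exact (mem_filter.mp hy).2 (hxy ▸ (mem_filter.mp hx).2)
  rcases hB12 with hB1 | hB2
  · obtain ⟨e, he⟩ := card_eq_one.mp hB1
    obtain ⟨a, t, hat, hAt, ht4⟩ := card_eq_succ.mp (show A.card = 3 + 1 by omega)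
    obtain ⟨b, c, d, hbc, hbd, hcd, rfl⟩ := card_eq_three.mp ht4
    have hab : a ≠ b := by rintro rfl; simp at hat
    have hac : a ≠ c := by rintro rfl; simp at hat
    have had : a ≠ d := by rintro rfl; simp at hat
    have ha := hAP a (by rw [← hAt]; simp)
    have hb := hAP b (by rw [← hAt]; simp)
    have hc := hAP c (by rw [← hAt]; simp)
    have hd := hAP d (by rw [← hAt]; simp)
    have heB : e ∈ B := by rw [he]; simp
    have heP := hBP e heB
    have hae := hABne a (by rw [← hAt]; simp) e heB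
    have hbe := hABne b (by rw [← hAt]; simp) e heB
    have hce := hABne c (by rw [← hAt]; simp) e heB
    have hde := hABne d (by rw [← hAt]; simp) e heB
    have he4 : w v e = 4 := by
      rw [he, sum_singleton] at hsum
      omega
    have hPe : P = {a, b, c, d, e} := by
      rw [hPAB, he, ← hAt]
      ext z; simp only [mem_union, mem_insert, mem_singleton]; tauto
    rw [hPe, exp_five h hab hac had hae hbc hbd hbe hcd hce hde] at h50
    have k1 := htwin a ha.1 ha.2 b hb.1 hab.symm
    have k2 := htwin a ha.1 ha.2 c hc.1 hac.symm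
    have k3 := htwin a ha.1 ha.2 d hd.1 had.symm
    have k4 := htwin a ha.1 ha.2 e heP hae.symm
    have k5 := htwin b hb.1 hb.2 c hc.1 hbc.symm
    have k6 := htwin b hb.1 hb.2 d hd.1 hbd.symm
    have k7 := htwin b hb.1 hb.2 e heP hbe.symm
    have k8 := htwin c hc.1 hc.2 d hd.1 hcd.symm
    have k9 := htwin c hc.1 hc.2 e heP hce.symm
    have k10 := htwin d hd.1 hd.2 e heP hde.symm
    have := hb.2; have := hc.2; have := hd.2
    omega
  · obtain ⟨e, f, hef, he⟩ := card_eq_two.mp hB2
    obtain ⟨a, b, c, hab, hac, hbc, hAt⟩ := card_eq_three.mp (show A.card = 3 by omega)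
    have ha := hAP a (by rw [hAt]; simp)
    have hb := hAP b (by rw [hAt]; simp)
    have hc := hAP c (by rw [hAt]; simp)
    have heB : e ∈ B := by rw [he]; simp
    have hfB : f ∈ B := by rw [he]; simp
    have heP := hBP e heB
    have hfP := hBP f hfB
    have hae := hABne a (by rw [hAt]; simp) e heB
    have hbe := hABne b (by rw [hAt]; simp) e heB
    have hce := hABne c (by rw [hAt]; simp) e heB
    have haf := hABne a (by rw [hAt]; simp) f hfB
    have hbf := hABne b (by rw [hAt]; simp) f hfB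
    have hcf := hABne c (by rw [hAt]; simp) f hfB
    have he3 := hB3 e heB
    have hf3 := hB3 f hfB
    rw [he, sum_pair hef] at hsum
    have hPe : P = {a, b, c, e, f} := by
      rw [hPAB, he, hAt]
      ext z; simp only [mem_union, mem_insert, mem_singleton]; tauto
    rw [hPe, exp_five h hab hac hae haf hbc hbe hbf hce hcf hef] at h50
    have k1 := htwin a ha.1 ha.2 b hb.1 hab.symm
    have k2 := htwin a ha.1 ha.2 c hc.1 hac.symm
    have k3 := htwin a ha.1 ha.2 e heP hae.symm
    have k4 := htwin a ha.1 ha.2 f hfP haf.symm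
    have k5 := htwin b hb.1 hb.2 c hc.1 hbc.symm
    have k6 := htwin b hb.1 hb.2 e heP hbe.symm
    have k7 := htwin b hb.1 hb.2 f hfP hbf.symm
    have k8 := htwin c hc.1 hc.2 e heP hce.symm
    have k9 := htwin c hc.1 hc.2 f hfP hcf.symm
    have l1 := ha.2
    have l2 := hb.2
    have l3 := hc.2
    have hva : v ≠ a := fun h' => hv (h' ▸ ha.1)
    have hvb : v ≠ b := fun h' => hv (h' ▸ hb.1)
    have hvc : v ≠ c := fun h' => hv (h' ▸ hc.1)
    have hve : v ≠ e := fun h' => hv (h' ▸ heP)
    have hvf : v ≠ f := fun h' => hv (h' ▸ hfP)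
    exact h.patB v a b c e f hva hvb hvc hve hvf hab hac hae haf hbc hbe hbf hce hcf hef
      (by omega) (by omega) (by omega) (by omega) (by omega) (by omega) (by omega) (by omega)
      (by omega) (by omega) (by omega) (by omega) (by omega) (by omega) (by omega)

/-- The step: some 4-subset can be removed. -/
lemma step (h : Good w) {X : Finset V} (hX : 5 ≤ X.card) :
    ∃ Q ⊆ X, Q.card = 4 ∧ dbl w Q + 2 * ∑ v ∈ X \ Q, deg w v Q ≤ 32 + 18 * (X.card - 4) := by
  have hne : (powersetCard 4 X).Nonempty := powersetCard_nonempty.mpr (by omega)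
  obtain ⟨Q, hQ, hmax⟩ := exists_max_image (powersetCard 4 X) (dbl w) hne
  rw [mem_powersetCard] at hQ
  have hmax' : ∀ R ⊆ X, R.card = 4 → dbl w R ≤ dbl w Q := fun R hR hRc =>
    hmax R (mem_powersetCard.mpr ⟨hR, hRc⟩)
  have hXQ : (X \ Q).card = X.card - 4 := by rw [card_sdiff_of_subset hQ.1, hQ.2]
  obtain ⟨k, hk⟩ := dbl_even h Q
  have h32 := dbl_four h hQ.2
  have hcrude : ∀ v ∈ X \ Q, 3 * deg w v Q ≤ dbl w Q := by
    intro v hv
    rw [mem_sdiff] at hv
    have h1 := sum_dbl_erase h (insert v Q)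
    have hc : (insert v Q).card = 5 := by rw [card_insert_of_notMem hv.2, hQ.2]
    have h2 : ∑ x ∈ insert v Q, dbl w ((insert v Q).erase x) ≤ ∑ _x ∈ insert v Q, dbl w Q := by
      refine sum_le_sum fun x hx => hmax' _ ?_ ?_
      · exact (erase_subset _ _).trans (insert_subset hv.1 hQ.1)
      · rw [card_erase_of_mem hx, hc]
    rw [sum_const, hc, smul_eq_mul] at h2
    rw [hc, dbl_insert h hv.2] at h1
    omega
  by_cases hall : ∀ v ∈ X \ Q, deg w v Q ≤ 9
  · refine ⟨Q, hQ.1, hQ.2, ?_⟩
    have h1 := sum_le_sum hall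
    rw [sum_const, hXQ, smul_eq_mul] at h1
    omega
  push Not at hall
  obtain ⟨v, hv, hv10⟩ := hall
  have hc := hcrude v hv
  have hv' := mem_sdiff.mp hv
  have hPc : (insert v Q).card = 5 := by rw [card_insert_of_notMem hv'.2, hQ.2]
  have h50 := dbl_five h hPc
  rw [dbl_insert h hv'.2] at h50
  have hQ30 : dbl w Q = 30 := by omega
  set P := insert v Q with hP
  have hPX : P ⊆ X := insert_subset hv'.1 hQ.1
  have hP50 : dbl w P = 50 := by rw [hP, dbl_insert h hv'.2]; omega
  have ht := tight h hPc hP50 fun x hx => by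
    rw [← hQ30]
    exact hmax' _ ((erase_subset _ _).trans hPX) (by rw [card_erase_of_mem hx, hPc])
  have hcl : ∀ u ∈ X \ P, deg w u P ≤ 11 := by
    intro u hu
    rw [mem_sdiff] at hu
    refine claim h hPc hP50 hu.2 fun R hR hRc => ?_
    rw [← hQ30]
    exact hmax' R (hR.trans (insert_subset hu.1 hPX)) hRc
  have hXP : (X \ P).card = X.card - 5 := by rw [card_sdiff_of_subset hPX, hPc]
  have hsum : ∑ x ∈ P, ∑ u ∈ X \ P, deg w u (P.erase x) ≤ 44 * (X.card - 5) := by
    rw [sum_comm]
    have h1 : ∀ u ∈ X \ P, ∑ x ∈ P, deg w u (P.erase x) ≤ 44 := by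
      intro u hu
      have h2 := sum_deg_erase h u P
      have h3 := hcl u hu
      rw [hPc] at h2
      omega
    have h2 := sum_le_sum h1
    rw [sum_const, hXP, smul_eq_mul] at h2
    omega
  obtain ⟨x, hx, hx9⟩ : ∃ x ∈ P, ∑ u ∈ X \ P, deg w u (P.erase x) ≤ 9 * (X.card - 5) := by
    by_contra hno
    push Not at hno
    have h1 : ∑ _x ∈ P, (9 * (X.card - 5) + 1) ≤ ∑ x ∈ P, ∑ u ∈ X \ P, deg w u (P.erase x) :=
      sum_le_sum fun x hx => hno x hx
    rw [sum_const, hPc, smul_eq_mul] at h1
    omega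
  refine ⟨P.erase x, (erase_subset _ _).trans hPX, by rw [card_erase_of_mem hx, hPc], ?_⟩
  have hset : X \ P.erase x = insert x (X \ P) := by
    ext z
    simp only [mem_sdiff, mem_erase, mem_insert]
    constructor
    · rintro ⟨hz1, hz2⟩
      by_cases hzx : z = x
      · exact Or.inl hzx
      · exact Or.inr ⟨hz1, fun hz3 => hz2 ⟨hzx, hz3⟩⟩
    · rintro (rfl | ⟨hz1, hz2⟩)
      · exact ⟨hPX hx, fun hz => hz.1 rfl⟩
      · exact ⟨hz1, fun hz => hz2 hz.2⟩
  rw [hset, sum_insert (by simp [hx])]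
  have h7 := dbl_erase h hx
  have h8 := deg_erase h (v := x) hx
  rw [h.diag] at h8
  have h9 := ht x hx
  have hcardX : 5 ≤ X.card := hX
  omega

/-- The extremal theorem. -/
theorem upper (h : Good w) : ∀ (m : ℕ) (X : Finset V), X.card = m → 3 ≤ m →
    4 * dbl w X ≤ m * (9 * m - 4) := by
  intro m
  induction m using Nat.strong_induction_on with
  | _ m ih =>
    intro X hX hm
    rcases (by omega : m = 3 ∨ m = 4 ∨ m = 5 ∨ m = 6 ∨ 7 ≤ m) with rfl | rfl | rfl | rfl | hm7
    · have := dbl_three h hX; omega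
    · have := dbl_four h hX; omega
    · have := dbl_five h hX; omega
    · have h1 := sum_dbl_erase h X
      have h2 : ∑ x ∈ X, dbl w (X.erase x) ≤ ∑ _x ∈ X, 50 :=
        sum_le_sum fun x hx => dbl_five h (by rw [card_erase_of_mem hx, hX])
      rw [sum_const, hX, smul_eq_mul] at h2
      rw [hX] at h1
      omega
    · obtain ⟨Q, hQX, hQc, hQ⟩ := step h (X := X) (by omega)
      have hc : (X \ Q).card = m - 4 := by rw [card_sdiff_of_subset hQX, hQc, hX]
      have h1 := ih (m - 4) (by omega) (X \ Q) hc (by omega)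
      have h2 := dbl_union h (disjoint_sdiff : Disjoint Q (X \ Q))
      rw [union_sdiff_of_subset hQX] at h2
      rw [hX] at hQ
      obtain ⟨k, rfl⟩ : ∃ k, m = k + 4 := ⟨m - 4, by omega⟩
      have e1 : k + 4 - 4 = k := by omega
      rw [e1] at h1 hQ
      obtain ⟨j, rfl⟩ : ∃ j, k = j + 1 := ⟨k - 1, by omega⟩
      have e2 : 9 * (j + 1) - 4 = 9 * j + 5 := by omega
      have e3 : 9 * (j + 1 + 4) - 4 = 9 * j + 41 := by omega
      rw [e2] at h1
      rw [e3]
      nlinarith

end Pool.Agent.Work.MP_4dbef5_lc.Upper
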